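import Pool.Agent.N510.PA.Sta
import Pool.Agent.Y510.LA.Lvl

/-!
# Star products over locally finite groups
-/

set_option autoImplicit false
set_option linter.unusedSectionVars false
set_option linter.unusedVariables false

open Classical

namespace Pool.Agent.N510.PA

open Pool.Agent.Y110.FJ (ClosedE)
open Pool.Agent.Y462.SS hiding psi psi_iA iA dl dl_mul psi_dl_s_ray psi_dl_s_off psi_dl_p EN
  tau_iA dl_eq_one dies_of_tau
open Pool.Agent.Y524L hiding Rel Gm pr pr_surjective iA iP iA_eq_iP shP psiA psiP psi0 psi0_rel psi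
  psi_pr psi_iA psi_iP cT dl dl_mul root_cT sec_cT_ray sec_cT_off psi_cT_p psi_cT_s psi_dl_p
  psi_dl_s_ray psi_dl_s_off EN tau_iA act_dl tau_dl dies_of_tau

variable {X : Type} [Finite X] (d : X)
variable {J : Type} {R M : J → Subgroup (T X)}
variable {C : ∀ (G : Type) [Group G], Prop}

/-- homomorphisms from a star product in the class -/
theorem finish {Γ : Type} [Group Γ] (t : Γ →* T X) (k : ∀ x : J × Bool, FE d R x →* Γ)
    (hRM : ∀ j, R j ≤ M j)
    (hk : ∀ x y, t (k x y) =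
      FEh d (fun j => toT d (M j)) (fun j => (M j).subtype) x (FEi d hRM x y))
    (hW : C (FP Γ (FE d M) ⧸ Subgroup.normalClosure
      (SR k (FEi d hRM) (fun _ => Set.univ) (t.ker : Set Γ))))
    (G : Subgroup (T X)) (hG : t.range = G) :
    ∃ (Q : Type) (_ : Group Q) (α : G →* Q) (c : ∀ j, PH d (M j) →* Q)
      (e : ∀ j, M j →* Q), C Q ∧ Function.Injective α ∧
      (∀ j, Function.Injective (c j)) ∧ (∀ j, Function.Injective (e j)) ∧
      (∀ j (p : PH d (M j)) (g : G), p.1 ∈ PH d (R j) →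
        g.1 = dT d (cr d) p.1 (cr d) → c j p = α g) ∧
      (∀ j (h : M j) (g : G), h.1 ∈ R j → g.1 = h.1 → e j h = α g) := by
  subst hG
  obtain ⟨F, hF1, hF2⟩ := SR_lift k (FEi d hRM)
    (fun j => Set.univ) (t.ker : Set Γ) t
    (FEh d (fun j => toT d (M j)) (fun j => (M j).subtype)) (fun γ hγ => hγ)
    (fun x y _ => hk x y)
  obtain ⟨g0, hg0⟩ : ∃ g0 : Γ →* FP Γ (FE d M) ⧸ Subgroup.normalClosure
      (SR k (FEi d hRM) (fun j => Set.univ) (t.ker : Set Γ)),
      g0 = (QuotientGroup.mk' _).comp Monoid.Coprod.inl := ⟨_, rfl⟩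
  have hker : t.rangeRestrict.ker ≤ g0.ker := by
    intro γ hγ
    have h3 : t γ = 1 := by
      rw [MonoidHom.mem_ker] at hγ
      exact congrArg Subtype.val hγ
    rw [hg0]
    exact (QuotientGroup.eq_one_iff _).2 (Subgroup.subset_normalClosure (Or.inl ⟨γ, h3, rfl⟩))
  obtain ⟨α, hα⟩ : ∃ α : t.range →* _, ∀ γ : Γ, ∀ g : t.range,
      t γ = g.1 → α g = g0 γ := by
    refine ⟨t.rangeRestrict.liftOfSurjective
      t.rangeRestrict_surjective ⟨g0, hker⟩, fun γ g hg => ?_⟩
    have h3 : g = t.rangeRestrict γ := Subtype.ext hg.symm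
    rw [h3]
    exact MonoidHom.liftOfRightInverse_comp_apply _ _ _ ⟨g0, hker⟩ γ
  have hαF : ∀ g : t.range, F (α g) = g.1 := by
    rintro ⟨_, γ, rfl⟩
    rw [hα γ _ rfl, hg0]
    exact hF1 γ
  have hrel : ∀ x (y : FE d R x), g0 (k x y) = QuotientGroup.mk
      (ofL Γ x (FEi d hRM x y)) := by
    intro x y
    rw [hg0, ← mul_inv_eq_one, ← QuotientGroup.mk_inv]
    exact (QuotientGroup.eq_one_iff _).2
      (Subgroup.subset_normalClosure (Or.inr ⟨x, y, trivial, rfl⟩))
  refine ⟨_, inferInstance, α,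
    fun j => (QuotientGroup.mk' _).comp (ofL (L := FE d M) Γ (j, true)),
    fun j => (QuotientGroup.mk' _).comp (ofL (L := FE d M) Γ (j, false)),
    hW, ?_, ?_, ?_, ?_, ?_⟩
  · intro a b hab
    apply Subtype.ext
    rw [← hαF a, ← hαF b, hab]
  · intro j a b hab
    have h3 := congrArg F hab
    exact toT_inj d (M j) ((hF2 (j, true) a).symm.trans (h3.trans (hF2 (j, true) b)))
  · intro j a b hab
    have h3 := congrArg F hab
    exact Subtype.ext ((hF2 (j, false) a).symm.trans (h3.trans (hF2 (j, false) b)))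
  · intro j p g hp hg
    have h3 := hrel (j, true) (⟨p.1, hp⟩ : PH d (R j))
    rw [hα (k (j, true) (⟨p.1, hp⟩ : PH d (R j))) g, h3]
    · rfl
    · rw [hg, hk]
      rfl
  · intro j h g hh hg
    have h3 := hrel (j, false) (⟨h.1, hh⟩ : R j)
    rw [hα (k (j, false) (⟨h.1, hh⟩ : R j)) g, h3]
    · rfl
    · rw [hg, hk]
      rfl

/-- finitely generated groups of finitary automorphisms are finite -/
theorem lf_Fn (s : Finset (Fn X)) : Finite (Subgroup.closure (s : Set (Fn X))) := by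
  have h0 : ∀ g : Fn X, ∃ k, IsDep k g.1 := fun g => g.2
  choose f hf using h0
  have hk : ∀ g ∈ s, IsDep (s.sup f) g.1 := fun g hg => isDep_le (Finset.le_sup hg) (hf g)
  have := finite_Dk (X := X) (s.sup f)
  have hle : Subgroup.closure (s : Set (Fn X)) ≤ (Dk X (s.sup f)).comap (Fn X).subtype := by
    rw [Subgroup.closure_le]
    intro g hg
    exact hk g hg
  refine Finite.of_injective (β := Dk X (s.sup f))
    (fun g : Subgroup.closure (s : Set (Fn X)) => ⟨g.1.1, hle g.2⟩) ?_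
  intro a b hab
  have h2 : a.1.1 = b.1.1 := congrArg (fun z : Dk X (s.sup f) => z.1) hab
  exact Subtype.ext (Subtype.ext h2)

theorem lf_FE (x : J × Bool) (s : Set (FE d (fun _ : J => Fn X) x)) (hs : s.Finite) :
    Finite (Subgroup.closure s) := by
  obtain ⟨t, rfl⟩ := hs.exists_finset_coe
  obtain ⟨j, b⟩ := x
  cases b with
  | true => exact Pool.Agent.Y442.LA.t_plf X d t
  | false => exact lf_Fn t

/-- the edges in the centre -/
noncomputable def bk {H : Subgroup (T X)} (hP : Pair d (Fn X) H) :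
    ∀ x : J × Bool, FE d (fun _ : J => Fn X) x →* H
  | (_, true) => ((toT d (Fn X)).codRestrict H (fun p => hP.dir _ _ _ p.2) : PH d (Fn X) →* H)
  | (_, false) => (Subgroup.inclusion hP.le : Fn X →* H)

theorem bk_eq {H : Subgroup (T X)} (hP : Pair d (Fn X) H) (hM : ∀ j, Fn X ≤ M j) :
    ∀ (x : J × Bool) (y : FE d (fun _ : J => Fn X) x), H.subtype (bk d hP x y) =
      FEh d (fun j => toT d (M j)) (fun j => (M j).subtype) x (FEi d hM x y)
  | (_, true), _ => rfl
  | (_, false), _ => rfl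

theorem bk_inj {H : Subgroup (T X)} (hP : Pair d (Fn X) H) (hM : ∀ j, Fn X ≤ M j)
    (x : J × Bool) : Function.Injective (bk d hP x) := by
  rw [injective_iff_map_eq_one]
  intro y hy
  have h1 := bk_eq (M := M) d hP hM x y
  rw [hy, map_one] at h1
  have h2 : FEi d hM x y = 1 := FEh_inj d (fun j => toT_inj d (M j))
    (fun j => Subtype.val_injective) x (h1.symm.trans (map_one _).symm)
  exact FEi_inj d hM x (h2.trans (map_one _).symm)

/-- **star products over locally finite groups** -/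
theorem base_star (hinj : S_INJ) (hstar : S_STAR) (hC : ClosedE C) {H : Subgroup (T X)}
    (hP : Pair d (Fn X) H) (hH : C H) (hMC : ∀ j, C (M j)) (hM : ∀ j, Fn X ≤ M j) :
    ∃ (Q : Type) (_ : Group Q) (α : H →* Q) (c : ∀ j, PH d (M j) →* Q)
      (e : ∀ j, M j →* Q), C Q ∧ Function.Injective α ∧
      (∀ j, Function.Injective (c j)) ∧ (∀ j, Function.Injective (e j)) ∧
      (∀ j (p : PH d (M j)) (g : H), p.1 ∈ PH d (Fn X) →
        g.1 = dT d (cr d) p.1 (cr d) → c j p = α g) ∧
      (∀ j (h : M j) (g : H), h.1 ∈ Fn X → g.1 = h.1 → e j h = α g) := by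
  refine finish (R := fun _ => Fn X) d H.subtype (bk d hP) hM (bk_eq d hP hM) ?_ H
    H.range_subtype
  have hker : (H.subtype.ker : Set H) = ((⊥ : Subgroup H) : Set H) := by
    rw [H.ker_subtype]
  rw [hker]
  obtain ⟨S, hS⟩ : ∃ S : Finset (Σ x : J × Bool, FE d (fun _ : J => Fn X) x) →
      Set (FP H (FE d M)), S = fun s =>
    SR (bk d hP) (FEi d hM) (fun x => ((Subgroup.closure {y | (⟨x, y⟩ :
      Σ x : J × Bool, FE d (fun _ : J => Fn X) x) ∈ s} :
      Subgroup (FE d (fun _ : J => Fn X) x)) : Set (FE d (fun _ : J => Fn X) x)))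
      ((⊥ : Subgroup H) : Set H) := ⟨_, rfl⟩
  have hSm : Monotone S := by
    intro s t hst
    rw [hS]
    exact SR_mono (fun x => Subgroup.closure_mono fun y hy => hst hy) subset_rfl
  have hSU : (⋃ s, S s) = SR (bk d hP) (FEi d hM) (fun _ => Set.univ)
      ((⊥ : Subgroup H) : Set H) := by
    rw [hS]
    apply subset_antisymm
    · exact Set.iUnion_subset fun i => SR_mono (fun _ => Set.subset_univ _) subset_rfl
    · rintro z (⟨γ, hγ, rfl⟩ | ⟨x, y, -, rfl⟩)
      · exact Set.mem_iUnion.2 ⟨∅, Or.inl ⟨γ, hγ, rfl⟩⟩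
      · refine Set.mem_iUnion.2 ⟨{⟨x, y⟩}, Or.inr ⟨x, y, ?_, rfl⟩⟩
        exact Subgroup.subset_closure (Finset.mem_singleton_self _)
  rw [← hSU]
  refine quot_colim hC.base (fun i j => ⟨i ∪ j, Finset.subset_union_left,
    Finset.subset_union_right⟩) S hSm fun s => ?_
  rw [hS]
  obtain ⟨E, hE⟩ : ∃ E : ∀ x : J × Bool, Subgroup (FE d (fun _ : J => Fn X) x),
    E = fun x => Subgroup.closure {y | (⟨x, y⟩ :
      Σ x : J × Bool, FE d (fun _ : J => Fn X) x) ∈ s} := ⟨_, rfl⟩
  have hEf : ∀ x, Finite (E x) := by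
    intro x
    rw [hE]
    refine lf_FE d x _ ?_
    exact Set.Finite.preimage (sigma_mk_injective.injOn) s.finite_toSet
  have hEe : (fun x => ((Subgroup.closure {y | (⟨x, y⟩ :
      Σ x : J × Bool, FE d (fun _ : J => Fn X) x) ∈ s} :
      Subgroup (FE d (fun _ : J => Fn X) x)) : Set (FE d (fun _ : J => Fn X) x))) =
      fun x => (E x : Set (FE d (fun _ : J => Fn X) x)) := by
    rw [hE]
  change C (FP H (FE d M) ⧸ Subgroup.normalClosure (SR (bk d hP) (FEi d hM) (fun x =>
    ((Subgroup.closure {y | (⟨x, y⟩ :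
      Σ x : J × Bool, FE d (fun _ : J => Fn X) x) ∈ s} :
      Subgroup (FE d (fun _ : J => Fn X) x)) : Set (FE d (fun _ : J => Fn X) x)))
      ((⊥ : Subgroup H) : Set H)))
  rw [hEe]
  have hsp := isSP_quot (bk d hP) (FEi d hM) E (⊥ : Subgroup H)
  have hbot : Function.Injective (QuotientGroup.mk' (⊥ : Subgroup H)) := by
    rw [injective_iff_map_eq_one]
    intro a ha
    exact Subgroup.mem_bot.1 ((QuotientGroup.eq_one_iff a).1 ha)
  obtain ⟨ha, hb⟩ := hinj _ _ _ _ _ _ _ _ _ hsp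
    (fun x => (hbot.comp (bk_inj (M := M) d hP hM x)).comp Subtype.val_injective)
    (fun x => (FEi_inj d hM x).comp Subtype.val_injective)
  obtain ⟨F, hF1, hF2⟩ := SR_lift (bk d hP) (FEi d hM)
    (fun x => (E x : Set (FE d (fun _ : J => Fn X) x))) ((⊥ : Subgroup H) : Set H)
    H.subtype (FEh d (fun j => toT d (M j)) (fun j => (M j).subtype))
    (fun γ hγ => by rw [Subgroup.mem_bot.1 hγ, map_one])
    (fun x y _ => bk_eq d hP hM x y)
  refine hstar C hC _ _ _ _ _ _ _ _ _ hsp ha hb ?_ (C_FE d hC.base hMC) fun x => ?_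
  · refine hC.base.of_injective _ _
      (QuotientGroup.lift (⊥ : Subgroup H) (MonoidHom.id H) fun y hy => Subgroup.mem_bot.1 hy)
      ?_ hH
    rw [injective_iff_map_eq_one]
    intro a ha
    obtain ⟨y, rfl⟩ := QuotientGroup.mk_surjective a
    have h1 : y = 1 := ha
    rw [h1]
    rfl
  · have := hEf x
    have := Fintype.ofFinite (E x)
    obtain ⟨Y, hY, ρ, hρ⟩ := Pool.Agent.Y510.LA.t_lvl X ((Finset.univ : Finset (E x)).image
      fun y => FEh d (fun j => toT d (M j)) (fun j => (M j).subtype) x (FEi d hM x y.1))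
    refine ⟨Equiv.Perm Y, inferInstance, ρ.comp F,
      Pool.Agent.Y430.SS.of_finite hC.base _ inferInstance, fun y hy => ?_⟩
    rw [hsp.comm] at hy ⊢
    have h1 : F (lef (bk d hP) (FEi d hM) (fun x => (E x : Set (FE d (fun _ : J => Fn X) x)))
        ((⊥ : Subgroup H) : Set H) x (FEi d hM x y.1)) =
        FEh d (fun j => toT d (M j)) (fun j => (M j).subtype) x (FEi d hM x y.1) := hF2 x _
    have h2 := hρ _ (Finset.mem_image_of_mem _ (Finset.mem_univ y)) (by
      rw [← h1]
      exact hy)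
    have h3 : FEi d hM x y.1 = 1 := FEh_inj d (fun j => toT_inj d (M j))
      (fun j => Subtype.val_injective) x (h2.trans (map_one _).symm)
    change lef _ _ _ _ x (FEi d hM x y.1) = 1
    rw [h3, map_one]

end Pool.Agent.N510.PA
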