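import Pool.Agent.Y524L.Fin
import Pool.Agent.Y442.LA.Nuc

/-!
# The cover of a group extended by directed automorphisms

Adapted from `Pool/Agent/Y524L/Cov.lean` (helper524).
-/

set_option autoImplicit false
set_option linter.unusedSectionVars false
set_option linter.unusedVariables false

open Classical

namespace Pool.Agent.N510.PA

open Pool.Agent.Y462.SS hiding psi psi_iA iA dl dl_mul psi_dl_s_ray psi_dl_s_off psi_dl_p EN
open Pool.Agent.Y524L hiding Rel Gm pr pr_surjective iA iP iA_eq_iP shP psiA psiP psi0 psi0_rel psi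
  psi_pr psi_iA psi_iP cT dl dl_mul root_cT sec_cT_ray sec_cT_off psi_cT_p psi_cT_s psi_dl_p
  psi_dl_s_ray psi_dl_s_off EN tau_iA act_dl tau_dl

variable {X : Type}

/-- the shifted sequence -/
def shn {α : Type} (k : ℕ) (f : ℕ → α) : ℕ → α := fun n => f (n + k)

theorem shn_zero {α : Type} (f : ℕ → α) : shn 0 f = f := rfl

theorem shn_sh {α : Type} (k : ℕ) (f : ℕ → α) : shn k (sh f) = shn (k + 1) f := by
  funext n
  show f (n + k + 1) = f (n + (k + 1))
  rw [add_assoc]

theorem sh_shn {α : Type} (k : ℕ) (f : ℕ → α) : sh (shn k f) = shn (k + 1) f := by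
  funext n
  show f (n + 1 + k) = f (n + (k + 1))
  rw [add_right_comm, add_assoc]

theorem shn_shn {α : Type} (k l : ℕ) (f : ℕ → α) : shn l (shn k f) = shn (k + l) f := by
  funext n
  show f (n + l + k) = f (n + (k + l))
  rw [add_assoc, add_comm l k]

/-- `H` can be extended by directed automorphisms with steps in `H`; those with steps in `H'` are
in `H` -/
structure Pair (d : X) (H' H : Subgroup (T X)) : Prop where
  le : H' ≤ H
  lc : LC H
  dir : ∀ (ξ η : ℕ → X) (β : ℕ → BT d), β ∈ PH d H' → dT d ξ β η ∈ H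
  ray : ∀ g ∈ H, ∀ ζ : ℕ → X, ∃ (k : ℕ) (β : ℕ → BT d) (η : ℕ → X), β ∈ PH d H' ∧
    al ζ g k = dT d (shn k ζ) β η

variable [Finite X] (d : X) (H' H : Subgroup (T X))

/-- the relations -/
def Rel : Set (Monoid.Coprod H (PH d H)) :=
  {r | ∃ (a : H) (p : PH d H), p.1 ∈ PH d H' ∧ a.1 = dT d (cr d) p.1 (cr d) ∧
    r = Monoid.Coprod.inl a * (Monoid.Coprod.inr p)⁻¹}

/-- the cover -/
def Gm : Type := Monoid.Coprod H (PH d H) ⧸ Subgroup.normalClosure (Rel d H' H)

noncomputable instance : Group (Gm d H' H) :=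
  inferInstanceAs (Group (Monoid.Coprod H (PH d H) ⧸ Subgroup.normalClosure (Rel d H' H)))

/-- the projection to the cover -/
def pr : Monoid.Coprod H (PH d H) →* Gm d H' H where
  toFun g := (QuotientGroup.mk g : Monoid.Coprod H (PH d H) ⧸
    Subgroup.normalClosure (Rel d H' H))
  map_one' := rfl
  map_mul' _ _ := rfl

theorem pr_surjective : Function.Surjective (pr d H' H) := QuotientGroup.mk_surjective

/-- the elements of `H` in the cover -/
noncomputable def iA : H →* Gm d H' H := (pr d H' H).comp Monoid.Coprod.inl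

/-- the directed automorphisms in the cover -/
noncomputable def iP : PH d H →* Gm d H' H := (pr d H' H).comp Monoid.Coprod.inr

theorem iA_eq_iP (a : H) (p : PH d H) (hp : p.1 ∈ PH d H')
    (h : a.1 = dT d (cr d) p.1 (cr d)) : iA d H' H a = iP d H' H p := by
  have h1 : pr d H' H (Monoid.Coprod.inl a * (Monoid.Coprod.inr p)⁻¹) = 1 := by
    change (QuotientGroup.mk _ : Monoid.Coprod H (PH d H) ⧸
      Subgroup.normalClosure (Rel d H' H)) = _
    exact (QuotientGroup.eq_one_iff _).2 (Subgroup.subset_normalClosure ⟨a, p, hp, h, rfl⟩)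
  rw [map_mul, map_inv] at h1
  exact mul_inv_eq_one.1 h1

/-- the universal property -/
theorem Gm_univ {G : Type} [Group G] (f : H →* G) (g : PH d H →* G)
    (h : ∀ (a : H) (p : PH d H), p.1 ∈ PH d H' → a.1 = dT d (cr d) p.1 (cr d) → f a = g p) :
    ∃ F : Gm d H' H →* G, (∀ a, F (iA d H' H a) = f a) ∧ ∀ p, F (iP d H' H p) = g p := by
  have hle : Subgroup.normalClosure (Rel d H' H) ≤ (Monoid.Coprod.lift f g).ker := by
    apply Subgroup.normalClosure_le_normal
    rintro _ ⟨a, p, hp, h1, rfl⟩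
    change Monoid.Coprod.lift f g (Monoid.Coprod.inl a * (Monoid.Coprod.inr p)⁻¹) = 1
    rw [map_mul, map_inv, mul_inv_eq_one, Monoid.Coprod.lift_apply_inl,
      Monoid.Coprod.lift_apply_inr]
    exact h a p hp h1
  refine ⟨QuotientGroup.lift (Subgroup.normalClosure (Rel d H' H)) (Monoid.Coprod.lift f g)
    (fun x hx => hle hx), fun a => ?_, fun p => ?_⟩
  · exact Monoid.Coprod.lift_apply_inl f g a
  · exact Monoid.Coprod.lift_apply_inr f g p

/-- induction -/
theorem Gm_induction {P : Gm d H' H → Prop} (hA : ∀ a, P (iA d H' H a))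
    (hP : ∀ p, P (iP d H' H p)) (hm : ∀ x y, P x → P y → P (x * y)) (γ : Gm d H' H) : P γ := by
  obtain ⟨g, rfl⟩ := pr_surjective d H' H γ
  induction g using Monoid.Coprod.induction_on with
  | inl a => exact hA a
  | inr p => exact hP p
  | mul a b ha hb =>
    rw [map_mul]
    exact hm _ _ ha hb

/-- the shift of an element of `PH d H` -/
def shP {H : Subgroup (T X)} (p : PH d H) : PH d H := ⟨sh p.1, sh_mem_PH d p.2⟩

variable {H} in
/-- the recursion on the directed automorphisms -/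
noncomputable def psiP : PH d H →* Wr X (Gm d H' H) where
  toFun β := ⟨fun x => if x = d then iP d H' H (shP d β) else
    iA d H' H ⟨(β.1 0).1.s x, β.2.2 0 x⟩, (β.1 0).1.p⟩
  map_one' := by
    apply Wr.ext
    · funext x
      change (if x = d then iP d H' H (shP d 1) else iA d H' H ⟨1, _⟩) = 1
      have h1 : iP d H' H (shP d 1) = 1 := map_one _
      have h2 : iA d H' H (⟨1, one_mem _⟩ : H) = 1 := map_one _
      rw [h1, h2, ite_self]
    · rfl
  map_mul' β γ := by
    apply Wr.ext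
    · funext x
      change (if x = d then iP d H' H (shP d (β * γ)) else
          iA d H' H ⟨((β.1 0).1 * (γ.1 0).1).s x, _⟩) =
        (if (γ.1 0).1.p x = d then iP d H' H (shP d β) else
          iA d H' H ⟨(β.1 0).1.s ((γ.1 0).1.p x), _⟩) *
        (if x = d then iP d H' H (shP d γ) else iA d H' H ⟨(γ.1 0).1.s x, _⟩)
      have hd : (γ.1 0).1.p d = d := (γ.1 0).2.1
      by_cases hx : x = d
      · subst hx
        rw [if_pos rfl, if_pos hd, if_pos rfl, ← map_mul]
        rfl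
      · have h2 : (γ.1 0).1.p x ≠ d := by
          intro h
          exact hx ((γ.1 0).1.p.injective (h.trans hd.symm))
        rw [if_neg hx, if_neg h2, if_neg hx, ← map_mul]
        rfl
    · rfl

variable {H' H} (hP : Pair d H' H)

/-- the recursion on `H` -/
noncomputable def psiA : H →* Wr X (Gm d H' H) where
  toFun a := ⟨fun x => iA d H' H ⟨sec a.1 x, hP.lc.sec_mem a.1 a.2 x⟩, root a.1⟩
  map_one' := by
    apply Wr.ext
    · funext x
      change iA d H' H _ = 1
      rw [← map_one (iA d H' H)]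
      exact congrArg (iA d H' H) (Subtype.ext (sec_one x))
    · exact root_one
  map_mul' a b := by
    apply Wr.ext
    · funext x
      change iA d H' H _ = iA d H' H _ * iA d H' H _
      rw [← map_mul]
      exact congrArg (iA d H' H) (Subtype.ext (sec_mul a.1 b.1 x))
    · exact root_mul a.1 b.1

theorem psi_exists : ∃ F : Gm d H' H →* Wr X (Gm d H' H),
    (∀ a, F (iA d H' H a) = psiA d hP a) ∧ ∀ p, F (iP d H' H p) = psiP d H' p := by
  apply Gm_univ
  intro a p hp h
  apply Wr.ext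
  · funext x
    change iA d H' H ⟨sec a.1 x, _⟩ = if x = d then iP d H' H (shP d p) else
      iA d H' H ⟨(p.1 0).1.s x, _⟩
    by_cases hx : x = d
    · rw [if_pos hx]
      apply iA_eq_iP
      · exact sh_mem_PH d hp
      · change sec a.1 x = dT d (cr d) (sh p.1) (cr d)
        rw [h, hx]
        exact sec_dT_ray d (cr d) p.1 (cr d)
    · rw [if_neg hx]
      congr 1
      apply Subtype.ext
      change sec a.1 x = (p.1 0).1.s x
      rw [h, sec_dT_off d (cr d) p.1 (cr d) x hx]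
      change (p.1 0).1.s (Equiv.swap d d x) = _
      rw [Equiv.swap_self]
      rfl
  · change root a.1 = (p.1 0).1.p
    rw [h]
    apply Equiv.ext
    intro x
    rw [root_dT]
    change Equiv.swap d d ((p.1 0).1.p (Equiv.swap d d x)) = _
    rw [Equiv.swap_self]
    rfl

/-- the recursion of the cover -/
noncomputable def psi : Gm d H' H →* Wr X (Gm d H' H) := (psi_exists d hP).choose

theorem psi_iA (a : H) : psi d hP (iA d H' H a) = psiA d hP a := (psi_exists d hP).choose_spec.1 a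

theorem psi_iP (p : PH d H) : psi d hP (iP d H' H p) = psiP d H' p :=
  (psi_exists d hP).choose_spec.2 p

/-! ## letters -/

/-- the automorphism that moves the ray `d d d ...` to `ξ` -/
noncomputable def cT (ξ : ℕ → X) : H := ⟨dT d (cr d) 1 ξ, hP.dir (cr d) ξ 1 (one_mem _)⟩

/-- the element of the cover that moves the ray `ξ` to the ray `η` -/
noncomputable def dl (ξ : ℕ → X) (β : PH d H) (η : ℕ → X) : Gm d H' H :=
  iA d H' H (cT d hP η) * iP d H' H β * (iA d H' H (cT d hP ξ))⁻¹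

theorem dl_mul (ξ η ζ : ℕ → X) (β γ : PH d H) :
    dl d hP η γ ζ * dl d hP ξ β η = dl d hP ξ (γ * β) ζ := by
  unfold dl
  rw [map_mul]
  group

theorem dl_one (ξ : ℕ → X) : dl d hP ξ 1 ξ = 1 := by
  unfold dl
  rw [map_one]
  group

theorem root_cT (ξ : ℕ → X) : root (cT d hP ξ).1 = Equiv.swap d (ξ 0) := by
  apply Equiv.ext
  intro x
  change root (dT d (cr d) 1 ξ) x = _
  rw [root_dT]
  change Equiv.swap d (ξ 0) (Equiv.swap d d x) = _
  rw [Equiv.swap_self]
  rfl

theorem sec_cT_ray (ξ : ℕ → X) : sec (cT d hP ξ).1 d = (cT d hP (sh ξ)).1 :=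
  sec_dT_ray d (cr d) 1 ξ

theorem sec_cT_off (ξ : ℕ → X) (x : X) (hx : x ≠ d) : sec (cT d hP ξ).1 x = 1 := by
  change sec (dT d (cr d) 1 ξ) x = 1
  rw [sec_dT_off d (cr d) 1 ξ x hx]
  rfl

theorem psi_cT_p (ξ : ℕ → X) : (psi d hP (iA d H' H (cT d hP ξ))).p = Equiv.swap d (ξ 0) := by
  rw [psi_iA]
  exact root_cT d hP ξ

theorem psi_cT_s (ξ : ℕ → X) (x : X) :
    (psi d hP (iA d H' H (cT d hP ξ))).s x =
      if x = d then iA d H' H (cT d hP (sh ξ)) else 1 := by
  rw [psi_iA]
  change iA d H' H ⟨sec (cT d hP ξ).1 x, _⟩ = _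
  by_cases hx : x = d
  · rw [if_pos hx]
    congr 1
    apply Subtype.ext
    change sec (cT d hP ξ).1 x = _
    rw [hx, sec_cT_ray]
  · rw [if_neg hx, ← map_one (iA d H' H)]
    congr 1
    apply Subtype.ext
    change sec (cT d hP ξ).1 x = _
    rw [sec_cT_off d hP ξ x hx]
    rfl

theorem psi_dl_p (ξ : ℕ → X) (β : PH d H) (η : ℕ → X) (x : X) :
    (psi d hP (dl d hP ξ β η)).p x =
      Equiv.swap d (η 0) ((β.1 0).1.p (Equiv.swap d (ξ 0) x)) := by
  unfold dl
  rw [map_mul, map_mul, map_inv, Wr.mul_p, Wr.mul_p, Wr.inv_p, psi_cT_p, psi_cT_p, psi_iP]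
  rfl

theorem psi_dl_s_ray (ξ : ℕ → X) (β : PH d H) (η : ℕ → X) :
    (psi d hP (dl d hP ξ β η)).s (ξ 0) = dl d hP (sh ξ) (shP d β) (sh η) := by
  unfold dl
  rw [map_mul, map_mul, map_inv, Wr.mul_s, Wr.mul_s, Wr.inv_s, Wr.inv_p, psi_cT_p, psi_cT_s,
    psi_cT_s, psi_iP]
  have h1 : (Equiv.swap d (ξ 0))⁻¹ (ξ 0) = d := Equiv.swap_apply_right _ _
  have h2 : (β.1 0).1.p d = d := (β.1 0).2.1
  have h3 : (psiP d H' β).p ((Equiv.swap d (ξ 0))⁻¹ (ξ 0)) = d := by rw [h1]; exact h2
  have h4 : (psiP d H' β).s ((Equiv.swap d (ξ 0))⁻¹ (ξ 0)) = iP d H' H (shP d β) := by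
    rw [h1]; exact if_pos rfl
  rw [h3, h4, if_pos rfl, h1, if_pos rfl]

theorem psi_dl_s_off (ξ : ℕ → X) (β : PH d H) (η : ℕ → X) (x : X) (hx : x ≠ ξ 0) :
    (psi d hP (dl d hP ξ β η)).s x =
      iA d H' H ⟨(β.1 0).1.s (Equiv.swap d (ξ 0) x), β.2.2 0 _⟩ := by
  unfold dl
  rw [map_mul, map_mul, map_inv, Wr.mul_s, Wr.mul_s, Wr.inv_s, Wr.inv_p, psi_cT_p, psi_cT_s,
    psi_cT_s, psi_iP]
  have h0 : (Equiv.swap d (ξ 0))⁻¹ x = Equiv.swap d (ξ 0) x := rfl
  have h1 : (Equiv.swap d (ξ 0)) x ≠ d := by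
    intro h
    apply hx
    rw [Equiv.swap_apply_eq_iff, Equiv.swap_apply_left] at h
    exact h
  have h3 : (β.1 0).1.p d = d := (β.1 0).2.1
  have h2 : (psiP d H' β).p ((Equiv.swap d (ξ 0)) x) ≠ d := by
    intro h
    exact h1 ((β.1 0).1.p.injective (h.trans h3.symm))
  have h4 : (psiP d H' β).s ((Equiv.swap d (ξ 0)) x) =
      iA d H' H ⟨(β.1 0).1.s (Equiv.swap d (ξ 0) x), β.2.2 0 _⟩ := if_neg h1
  rw [h0, if_neg h1, if_neg h2, h4, one_mul, inv_one, mul_one]

/-! ## the action -/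

theorem tau_iA (a : H) : tau (psi d hP) (iA d H' H a) = a.1 := by
  apply Subtype.ext
  apply Equiv.ext
  intro w
  change act (psi d hP) (iA d H' H a) w = a.1.1 w
  induction w generalizing a with
  | nil => rw [act_nil, nil_eq]
  | cons x w ih =>
    rw [act_cons, cons_eq, psi_iA]
    congr 1
    exact ih ⟨sec a.1 x, hP.lc.sec_mem a.1 a.2 x⟩

theorem act_dl (w : List X) (ξ : ℕ → X) (β : PH d H) (η : ℕ → X) :
    act (psi d hP) (dl d hP ξ β η) w = dA d ξ β.1 η w := by
  induction w generalizing ξ β η with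
  | nil => rw [act_nil, dA_nil]
  | cons x w ih =>
    rw [act_cons, dA_cons, psi_dl_p]
    congr 1
    by_cases hx : x = ξ 0
    · rw [if_pos hx, hx, psi_dl_s_ray, ih]
      rfl
    · rw [if_neg hx, psi_dl_s_off _ _ _ _ _ _ hx]
      have h1 := tau_iA d hP ⟨(β.1 0).1.s (Equiv.swap d (ξ 0) x), β.2.2 0 _⟩
      exact congrFun (congrArg (fun (g : T X) => (g.1 : List X → List X)) h1) w

theorem tau_dl (ξ : ℕ → X) (β : PH d H) (η : ℕ → X) :
    tau (psi d hP) (dl d hP ξ β η) = dT d ξ β.1 η := by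
  apply Subtype.ext
  apply Equiv.ext
  intro w
  exact act_dl d hP w ξ β η

theorem dl_cr (p : PH d H) : dl d hP (cr d) p (cr d) = iP d H' H p := by
  have h0 : cT d hP (cr d) = 1 := Subtype.ext (dT_id d (cr d))
  unfold dl
  rw [h0, map_one]
  group

theorem tau_iP (p : PH d H) : tau (psi d hP) (iP d H' H p) = dT d (cr d) p.1 (cr d) := by
  rw [← dl_cr d hP, tau_dl]

/-- the elements of `H` which are directed with steps in `H'` -/
theorem iA_dir (a : H) (ξ : ℕ → X) (β : PH d H) (η : ℕ → X)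
    (hβ : β.1 ∈ PH d H') (h : a.1 = dT d ξ β.1 η) : iA d H' H a = dl d hP ξ β η := by
  set b : H := ⟨dT d (cr d) β.1 (cr d), hP.dir (cr d) (cr d) β.1 hβ⟩ with hb
  have h1 : iA d H' H b = iP d H' H β := iA_eq_iP d H' H b β hβ rfl
  have h2 : a * cT d hP ξ = cT d hP η * b := by
    apply Subtype.ext
    change a.1 * dT d (cr d) 1 ξ = dT d (cr d) 1 η * dT d (cr d) β.1 (cr d)
    rw [h, dT_mul, dT_mul, mul_one, one_mul]
  unfold dl
  rw [← h1, ← map_mul, ← h2, map_mul]
  group

end Pool.Agent.N510.PA
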