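import Pool.Agent.N510.PA.Cov

/-!
# Contraction of the cover; the next pair
-/

set_option autoImplicit false
set_option linter.unusedSectionVars false
set_option linter.unusedVariables false

open Classical

namespace Pool.Agent.N510.PA

open Pool.Agent.Y462.SS hiding psi psi_iA iA dl dl_mul psi_dl_s_ray psi_dl_s_off psi_dl_p EN
  tau_iA dl_eq_one dies_of_tau
open Pool.Agent.Y524L hiding Rel Gm pr pr_surjective iA iP iA_eq_iP shP psiA psiP psi0 psi0_rel psi
  psi_pr psi_iA psi_iP cT dl dl_mul root_cT sec_cT_ray sec_cT_off psi_cT_p psi_cT_s psi_dl_p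
  psi_dl_s_ray psi_dl_s_off EN tau_iA act_dl tau_dl dies_of_tau

variable {X : Type}

/-! ## sections along a ray in a group with a recursion -/

section ray

variable {Γ : Type} [Group Γ] (ψ : Γ →* Wr X Γ)

/-- the section along a ray -/
def alG (ζ : ℕ → X) (γ : Γ) : ℕ → Γ
  | 0 => γ
  | n + 1 => (ψ (alG ζ γ n)).s (ζ n)

/-- the image of a ray -/
def imG (γ : Γ) (ζ : ℕ → X) (n : ℕ) : X := (ψ (alG ψ ζ γ n)).p (ζ n)

theorem alG_mul (γ δ : Γ) (ζ : ℕ → X) (n : ℕ) :
    alG ψ ζ (γ * δ) n = alG ψ (imG ψ δ ζ) γ n * alG ψ ζ δ n := by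
  induction n with
  | zero => rfl
  | succ n ih =>
    change (ψ (alG ψ ζ (γ * δ) n)).s (ζ n) = _
    rw [ih, map_mul, Wr.mul_s]
    rfl

theorem alG_add (γ : Γ) (ζ : ℕ → X) (k l : ℕ) :
    alG ψ (shn k ζ) (alG ψ ζ γ k) l = alG ψ ζ γ (k + l) := by
  induction l with
  | zero => rfl
  | succ l ih =>
    change (ψ (alG ψ (shn k ζ) (alG ψ ζ γ k) l)).s (shn k ζ l) = _
    rw [ih]
    change _ = (ψ (alG ψ ζ γ (k + l))).s (ζ (k + l))
    rw [shn, add_comm l k]

theorem imG_add (γ : Γ) (ζ : ℕ → X) (k : ℕ) :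
    imG ψ (alG ψ ζ γ k) (shn k ζ) = shn k (imG ψ γ ζ) := by
  funext l
  change (ψ (alG ψ (shn k ζ) (alG ψ ζ γ k) l)).p (shn k ζ l) =
    (ψ (alG ψ ζ γ (l + k))).p (ζ (l + k))
  rw [alG_add, shn, add_comm l k]

theorem al_tau (γ : Γ) (ζ : ℕ → X) (n : ℕ) : al ζ (tau ψ γ) n = tau ψ (alG ψ ζ γ n) := by
  induction n with
  | zero => rfl
  | succ n ih =>
    change sec (al ζ (tau ψ γ) n) (ζ n) = _
    rw [ih, sec_tau]
    rfl

/-- an element that acts trivially and does not die has a ray of such sections -/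
theorem exists_ray {γ : Γ} (h : tau ψ γ = 1) (hd : ¬ Dies ψ γ) :
    ∃ ζ : ℕ → X, ∀ n, tau ψ (alG ψ ζ γ n) = 1 ∧ ¬ Dies ψ (alG ψ ζ γ n) := by
  have h1 : ∀ δ : {δ : Γ // tau ψ δ = 1 ∧ ¬ Dies ψ δ}, ∃ x, tau ψ ((ψ δ.1).s x) = 1 ∧
      ¬ Dies ψ ((ψ δ.1).s x) := by
    rintro ⟨δ, h2, h3⟩
    by_contra hcon
    push Not at hcon
    apply h3
    apply Dies.step
    · rw [← root_tau, h2, root_one]
    · intro x
      apply hcon
      rw [← sec_tau, h2, sec_one]
  choose f hf using h1
  let S : ℕ → {δ : Γ // tau ψ δ = 1 ∧ ¬ Dies ψ δ} := fun n =>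
    Nat.rec ⟨γ, h, hd⟩ (fun _ δ => ⟨(ψ δ.1).s (f δ), hf δ⟩) n
  have hS : ∀ n, alG ψ (fun n => f (S n)) γ n = (S n).1 := by
    intro n
    induction n with
    | zero => rfl
    | succ n ih =>
      change (ψ (alG ψ (fun n => f (S n)) γ n)).s (f (S n)) = _
      rw [ih]
  refine ⟨fun n => f (S n), fun n => ?_⟩
  rw [hS]
  exact (S n).2

end ray

/-! ## all elements of the cover are directed along all rays -/

variable [Finite X] (d : X) {H' H : Subgroup (T X)} (hP : Pair d H' H)

theorem alG_iA (a : H) (ζ : ℕ → X) (n : ℕ) : ∃ h : al ζ a.1 n ∈ H,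
    alG (psi d hP) ζ (iA d H' H a) n = iA d H' H ⟨al ζ a.1 n, h⟩ := by
  induction n with
  | zero => exact ⟨a.2, rfl⟩
  | succ n ih =>
    obtain ⟨h, ih⟩ := ih
    refine ⟨hP.lc.sec_mem _ h _, ?_⟩
    change (psi d hP (alG (psi d hP) ζ (iA d H' H a) n)).s (ζ n) = _
    rw [ih, psi_iA]
    rfl

/-- the section is a directed letter -/
def Dt (γ : Gm d H' H) (ζ : ℕ → X) (k : ℕ) : Prop :=
  ∃ (β : PH d H) (η : ℕ → X), alG (psi d hP) ζ γ k = dl d hP (shn k ζ) β η

theorem Dt.succ {γ : Gm d H' H} {ζ : ℕ → X} {k : ℕ} (h : Dt d hP γ ζ k) :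
    Dt d hP γ ζ (k + 1) := by
  obtain ⟨β, η, h⟩ := h
  refine ⟨shP d β, sh η, ?_⟩
  change (psi d hP (alG (psi d hP) ζ γ k)).s (ζ k) = _
  have h1 : ζ k = shn k ζ 0 := by rw [shn, zero_add]
  rw [h, h1, psi_dl_s_ray, sh_shn]

theorem Dt.mono {γ : Gm d H' H} {ζ : ℕ → X} {k l : ℕ} (hkl : k ≤ l) (h : Dt d hP γ ζ k) :
    Dt d hP γ ζ l := by
  induction hkl with
  | refl => exact h
  | step _ ih => exact ih.succ

theorem imG_dl (ξ : ℕ → X) (β : PH d H) (η : ℕ → X) : imG (psi d hP) (dl d hP ξ β η) ξ = η := by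
  have key : ∀ n (ξ : ℕ → X) (β : PH d H) (η : ℕ → X), ∃ β' : PH d H,
      alG (psi d hP) ξ (dl d hP ξ β η) n = dl d hP (shn n ξ) β' (shn n η) := by
    intro n
    induction n with
    | zero => exact fun ξ β η => ⟨β, rfl⟩
    | succ n ih =>
      intro ξ β η
      obtain ⟨β', h⟩ := ih ξ β η
      refine ⟨shP d β', ?_⟩
      change (psi d hP (alG (psi d hP) ξ (dl d hP ξ β η) n)).s (ξ n) = _
      have h1 : ξ n = shn n ξ 0 := by rw [shn, zero_add]
      rw [h, h1, psi_dl_s_ray, sh_shn, sh_shn]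
  funext n
  obtain ⟨β', h⟩ := key n ξ β η
  change (psi d hP (alG (psi d hP) ξ (dl d hP ξ β η) n)).p (ξ n) = _
  have h1 : ξ n = shn n ξ 0 := by rw [shn, zero_add]
  rw [h, h1, psi_dl_p, Equiv.swap_apply_right, (β'.1 0).2.1, Equiv.swap_apply_left, shn, zero_add]

theorem Dt.im {γ : Gm d H' H} {ζ : ℕ → X} {k : ℕ} (h : Dt d hP γ ζ k) :
    ∃ β : PH d H, alG (psi d hP) ζ γ k = dl d hP (shn k ζ) β (shn k (imG (psi d hP) γ ζ)) := by
  obtain ⟨β, η, h⟩ := h
  have h1 : η = shn k (imG (psi d hP) γ ζ) := by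
    rw [← imG_add, h, imG_dl]
  exact ⟨β, h1 ▸ h⟩

theorem Dt_iA (a : H) (ζ : ℕ → X) : ∃ k, Dt d hP (iA d H' H a) ζ k := by
  obtain ⟨k, β, η, hβ, h⟩ := hP.ray a.1 a.2 ζ
  obtain ⟨h1, h2⟩ := alG_iA d hP a ζ k
  refine ⟨k, ⟨β, PH_mono d hP.le hβ⟩, η, ?_⟩
  rw [h2]
  exact iA_dir d hP _ _ ⟨β, PH_mono d hP.le hβ⟩ _ hβ h

theorem Dt_of_A {γ : Gm d H' H} {ζ : ℕ → X} {k : ℕ} {a : H}
    (h : alG (psi d hP) ζ γ k = iA d H' H a) : ∃ k, Dt d hP γ ζ k := by
  obtain ⟨l, β, η, h1⟩ := Dt_iA d hP a (shn k ζ)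
  refine ⟨k + l, β, η, ?_⟩
  rw [← alG_add, h, h1, shn_shn]

theorem Dt_dl (ξ : ℕ → X) (β : PH d H) (η : ℕ → X) (ζ : ℕ → X) :
    ∃ k, Dt d hP (dl d hP ξ β η) ζ k := by
  by_cases hζ : ζ = ξ
  · exact ⟨0, β, η, by rw [hζ]; rfl⟩
  · obtain ⟨t, ht⟩ := Function.ne_iff.1 hζ
    have key : ∃ k, ∃ a : H, alG (psi d hP) ζ (dl d hP ξ β η) k = iA d H' H a := by
      clear hζ
      induction t generalizing ζ ξ β η with
      | zero =>
        refine ⟨1, _, psi_dl_s_off d hP ξ β η (ζ 0) ht⟩
      | succ t ih =>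
        by_cases h0 : ζ 0 = ξ 0
        · obtain ⟨k, a, h⟩ := ih (sh ξ) (shP d β) (sh η) (sh ζ) ht
          refine ⟨1 + k, a, ?_⟩
          rw [← alG_add]
          have h1 : alG (psi d hP) ζ (dl d hP ξ β η) 1 = dl d hP (sh ξ) (shP d β) (sh η) := by
            change (psi d hP (dl d hP ξ β η)).s (ζ 0) = _
            rw [h0, psi_dl_s_ray]
          rw [h1]
          exact h
        · exact ⟨1, _, psi_dl_s_off d hP ξ β η (ζ 0) h0⟩
    obtain ⟨k, a, h⟩ := key
    exact Dt_of_A d hP h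

/-- **every element is directed along every ray** -/
theorem Dt_all (γ : Gm d H' H) : ∀ ζ : ℕ → X, ∃ k, Dt d hP γ ζ k := by
  induction γ using Gm_induction d H' H with
  | hA a => exact Dt_iA d hP a
  | hP p =>
    intro ζ
    rw [← dl_cr d hP]
    exact Dt_dl d hP _ _ _ ζ
  | hm x y hx hy =>
    intro ζ
    obtain ⟨k, hk⟩ := hy ζ
    obtain ⟨l, hl⟩ := hx (imG (psi d hP) y ζ)
    obtain ⟨β, h1⟩ := (hk.mono d hP (le_max_left k l)).im
    obtain ⟨γ, η, h2⟩ := hl.mono d hP (le_max_right k l)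
    refine ⟨max k l, γ * β, η, ?_⟩
    rw [alG_mul, h1, h2, dl_mul]

/-- elements that act trivially die -/
theorem dies_of_tau {γ : Gm d H' H} (h : tau (psi d hP) γ = 1) : Dies (psi d hP) γ := by
  by_contra hd
  obtain ⟨ζ, hζ⟩ := exists_ray _ h hd
  obtain ⟨k, β, η, h1⟩ := Dt_all d hP γ ζ
  obtain ⟨h2, h3⟩ := hζ k
  rw [h1] at h2 h3
  rw [tau_dl] at h2
  obtain ⟨h4, h5⟩ := dT_eq_one d h2
  apply h3
  have h6 : β = 1 := Subtype.ext h5
  rw [h4, h6, dl_one]
  exact Dies.one

/-! ## the next group -/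

/-- the group generated by `H` and the directed automorphisms with steps in `H` -/
noncomputable def nxt : Subgroup (T X) := (tau (psi d hP)).range

theorem le_nxt : H ≤ nxt d hP := fun a ha => ⟨iA d H' H ⟨a, ha⟩, tau_iA d hP ⟨a, ha⟩⟩

theorem dT_mem_nxt (ξ η : ℕ → X) (β : ℕ → BT d) (hβ : β ∈ PH d H) : dT d ξ β η ∈ nxt d hP :=
  ⟨dl d hP ξ ⟨β, hβ⟩ η, tau_dl d hP ξ ⟨β, hβ⟩ η⟩

omit [Finite X] in
/-- the automorphism with the given sections and permutation -/
def mkT (a : Wr X (T X)) : T X :=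
  ⟨{ toFun := fun w => match w with
        | [] => []
        | x :: w => a.p x :: (a.s x).1 w
     invFun := fun w => match w with
        | [] => []
        | x :: w => a.p.symm x :: (a.s (a.p.symm x)).1.symm w
     left_inv := fun w => by
        cases w with
        | nil => rfl
        | cons x w => simp
     right_inv := fun w => by
        cases w with
        | nil => rfl
        | cons x w => simp }, by
    refine ⟨fun v => ?_, fun v w => ?_⟩
    · cases v with
      | nil => rfl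
      | cons x v =>
        change (a.p x :: (a.s x).1 v).length = _
        rw [List.length_cons, List.length_cons, (a.s x).2.1]
    · cases v with
      | nil => exact List.nil_prefix
      | cons x v =>
        change (a.p x :: (a.s x).1 v) <+: (a.p x :: (a.s x).1 (v ++ w))
        rw [List.cons_prefix_cons]
        exact ⟨rfl, (a.s x).2.2 v w⟩⟩

omit [Finite X] in
theorem root_mkT (a : Wr X (T X)) : root (mkT a) = a.p := by
  apply Equiv.ext
  intro x
  have h1 := cons_eq (mkT a) x []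
  have h2 : (mkT a).1 [x] = a.p x :: (a.s x).1 [] := rfl
  rw [h2] at h1
  exact (List.cons.inj h1).1.symm

omit [Finite X] in
theorem sec_mkT (a : Wr X (T X)) (x : X) : sec (mkT a) x = a.s x := by
  apply Subtype.ext
  apply Equiv.ext
  intro w
  have h1 := cons_eq (mkT a) x w
  have h2 : (mkT a).1 (x :: w) = a.p x :: (a.s x).1 w := rfl
  rw [h2] at h1
  exact (List.cons.inj h1).2.symm

omit [Finite X] in
theorem mkT_mul (a b : Wr X (T X)) : mkT (a * b) = mkT a * mkT b := by
  apply T_ext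
  · rw [root_mul, root_mkT, root_mkT, root_mkT]
    rfl
  · intro x
    rw [sec_mul, sec_mkT, sec_mkT, sec_mkT, root_mkT]
    rfl

omit [Finite X] in
/-- `g` at the letter `x` -/
noncomputable def del (x : X) (g : T X) : T X := mkT ⟨fun y => if y = x then g else 1, 1⟩

omit [Finite X] in
theorem del_mul (x : X) (g h : T X) : del x (g * h) = del x g * del x h := by
  unfold del
  rw [← mkT_mul]
  congr 1
  apply Wr.ext
  · funext y
    change (if y = x then g * h else 1) = (if y = x then g else 1) * (if y = x then h else 1)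
    split_ifs
    · rfl
    · rw [mul_one]
  · rfl

omit [Finite X] in
/-- put a term in front of a sequence -/
def cns {α : Type} (x : α) (f : ℕ → α) : ℕ → α
  | 0 => x
  | n + 1 => f n

theorem del_dT (x : X) (β : ℕ → BT d) :
    del x (dT d (cr d) β (cr d)) = dT d (cns x (cr d)) (cns 1 β) (cns x (cr d)) := by
  apply T_ext
  · apply Equiv.ext
    intro y
    rw [root_dT]
    change root (mkT _) y = Equiv.swap d x (Equiv.swap d x y)
    rw [root_mkT, Equiv.swap_apply_self]
    rfl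
  · intro y
    unfold del
    rw [sec_mkT]
    by_cases hy : y = x
    · subst hy
      have h1 := sec_dT_ray d (cns y (cr d)) (cns 1 β) (cns y (cr d))
      change sec _ y = _ at h1
      rw [h1]
      change (if y = y then _ else _) = _
      rw [if_pos rfl]
      rfl
    · rw [sec_dT_off d _ _ _ y hy]
      change (if y = x then _ else _) = _
      rw [if_neg hy]
      rfl

theorem cns_mem {β : ℕ → BT d} (hβ : β ∈ PH d H) : cns 1 β ∈ PH d H := by
  refine ⟨(hβ.1.insert 1).subset ?_, ?_⟩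
  · rintro _ ⟨n, rfl⟩
    cases n with
    | zero => exact Set.mem_insert _ _
    | succ n => exact Set.mem_insert_of_mem _ ⟨n, rfl⟩
  · intro n x
    cases n with
    | zero => exact one_mem H
    | succ n => exact hβ.2 n x

theorem del_mem (x : X) {g : T X} (hg : g ∈ nxt d hP) : del x g ∈ nxt d hP := by
  obtain ⟨γ, rfl⟩ := hg
  induction γ using Gm_induction d H' H with
  | hA a =>
    rw [tau_iA]
    apply le_nxt d hP
    apply hP.lc.of_sec
    intro y
    unfold del
    rw [sec_mkT]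
    change (if y = x then a.1 else 1) ∈ H
    split_ifs
    · exact a.2
    · exact one_mem H
  | hP p =>
    rw [tau_iP, del_dT]
    exact dT_mem_nxt d hP _ _ _ (cns_mem d p.2)
  | hm a b ha hb =>
    rw [map_mul, del_mul]
    exact mul_mem ha hb

theorem lc_nxt : LC (nxt d hP) where
  sec_mem := by
    rintro _ ⟨γ, rfl⟩ x
    rw [sec_tau]
    exact ⟨_, rfl⟩
  of_sec := by
    intro g hg
    have := Fintype.ofFinite X
    have h1 : ∀ s : Finset X, mkT ⟨fun y => if y ∈ s then sec g y else 1, 1⟩ ∈ nxt d hP := by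
      intro s
      induction s using Finset.induction_on with
      | empty =>
        have h2 : mkT (⟨fun y => if y ∈ (∅ : Finset X) then sec g y else 1, 1⟩ : Wr X (T X)) =
            1 := by
          apply T_ext
          · rw [root_mkT, root_one]
          · intro y
            rw [sec_mkT, sec_one]
            simp
        rw [h2]
        exact one_mem _
      | insert x s hx ih =>
        have h2 : mkT (⟨fun y => if y ∈ insert x s then sec g y else 1, 1⟩ : Wr X (T X)) =
            del x (sec g x) * mkT ⟨fun y => if y ∈ s then sec g y else 1, 1⟩ := by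
          unfold del
          rw [← mkT_mul]
          congr 1
          apply Wr.ext
          · funext y
            change (if y ∈ insert x s then sec g y else 1) =
              (if y = x then sec g x else 1) * (if y ∈ s then sec g y else 1)
            by_cases hy : y = x
            · subst hy
              rw [if_pos (Finset.mem_insert_self _ _), if_pos rfl, if_neg hx, mul_one]
            · rw [if_neg hy, one_mul]
              by_cases hs : y ∈ s
              · rw [if_pos hs, if_pos (Finset.mem_insert_of_mem hs)]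
              · rw [if_neg hs, if_neg (by rw [Finset.mem_insert]; tauto)]
          · rfl
        rw [h2]
        exact mul_mem (del_mem d hP x (hg x)) ih
    have h2 : g = mkT ⟨fun _ => 1, root g⟩ *
        mkT ⟨fun y => if y ∈ (Finset.univ : Finset X) then sec g y else 1, 1⟩ := by
      rw [← mkT_mul]
      apply T_ext
      · rw [root_mkT]
        rfl
      · intro y
        rw [sec_mkT]
        change _ = 1 * (if y ∈ Finset.univ then sec g y else 1)
        rw [if_pos (Finset.mem_univ y), one_mul]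
    rw [h2]
    refine mul_mem (le_nxt d hP (hP.lc.of_sec _ fun x => ?_)) (h1 _)
    rw [sec_mkT]
    exact one_mem H

/-- **the next pair** -/
theorem pair_nxt : Pair d H (nxt d hP) where
  le := le_nxt d hP
  lc := lc_nxt d hP
  dir := fun ξ η β hβ => dT_mem_nxt d hP ξ η β hβ
  ray := by
    rintro _ ⟨γ, rfl⟩ ζ
    obtain ⟨k, β, η, h⟩ := Dt_all d hP γ ζ
    refine ⟨k, β.1, η, β.2, ?_⟩
    rw [al_tau, h, tau_dl]

end Pool.Agent.N510.PA
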