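import Pool.Agent.N510.PA.Ind
import Pool.Agent.Y179.SS.Free

/-!
# Groups generated by automorphisms of polynomial activity
-/

set_option autoImplicit false
set_option linter.unusedSectionVars false
set_option linter.unusedVariables false

open Classical

namespace Pool.Agent.N510.PA

open Pool.Agent.Y110.FJ (ClosedE)
open Pool.Agent.Y331.SS (t_lim)
open Pool.Agent.Y462.SS hiding psi psi_iA iA dl dl_mul psi_dl_s_ray psi_dl_s_off psi_dl_p EN
  tau_iA dl_eq_one dies_of_tau
open Pool.Agent.Y524L hiding Rel Gm pr pr_surjective iA iP iA_eq_iP shP psiA psiP psi0 psi0_rel psi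
  psi_pr psi_iA psi_iP cT dl dl_mul root_cT sec_cT_ray sec_cT_off psi_cT_p psi_cT_s psi_dl_p
  psi_dl_s_ray psi_dl_s_off EN tau_iA act_dl tau_dl dies_of_tau

variable {X : Type}

theorem lc_level {H : Subgroup (T X)} (hH : LC H) (n : ℕ) : ∀ g : T X,
    (∀ v : List X, v.length = n → secW g v ∈ H) → g ∈ H := by
  induction n with
  | zero => exact fun g h => h [] rfl
  | succ n ih =>
    intro g h
    apply hH.of_sec
    intro x
    apply ih
    intro v hv
    exact h (x :: v) (by rw [List.length_cons, hv])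

variable [Finite X] (d : X)

theorem pol_mem (n : ℕ) : ∀ (g : Equiv.Perm (List X)) (hg : IsTree g), IsPol n g →
    (⟨g, hg⟩ : T X) ∈ HH d (n + 1) := by
  induction n with
  | zero =>
    intro g hg h
    rw [zero_add, HH_one]
    exact bdd_mem_HB d h
  | succ n ih =>
    intro g hg h
    obtain ⟨R, F, hF, h1⟩ := h
    let F' : Finset (T X) := F.attach.image fun f => ⟨f.1, (hF f.1 f.2).1⟩
    have hF' : ∀ f ∈ F', f ∈ HH d (n + 1) := by
      intro f hf
      obtain ⟨f', -, rfl⟩ := Finset.mem_image.1 hf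
      exact ih f'.1 (hF f'.1 f'.2).1 (hF f'.1 f'.2).2
    have hcd : Pool.Agent.Y442.LA.Cd F' R (⟨g, hg⟩ : T X) := by
      intro v hv
      obtain ⟨v₁, v₂, h3, f, hf, h4⟩ := h1 v hv
      refine ⟨v₁, v₂, h3, ?_⟩
      refine Finset.mem_image.2 ⟨⟨f, hf⟩, Finset.mem_attach _ _, ?_⟩
      apply Subtype.ext
      apply Equiv.ext
      intro w
      have h5 := apply_append ⟨g, hg⟩ v₁ w
      have h6 := h4 w
      change g (v₁ ++ w) = g v₁ ++ (secW ⟨g, hg⟩ v₁).1 w at h5
      rw [h6] at h5
      exact List.append_cancel_left h5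
    obtain ⟨m, hm⟩ := Pool.Agent.Y442.LA.ev_all (d := d) (lc_HH d (n + 1)) hF' R.card R _ rfl hcd
    refine lc_level (lc_HH d (n + 2)) m _ fun v hv => ?_
    rcases hm v hv with h3 | ⟨ξ, β, η, hβ, h3⟩
    · exact HH_mono d (Nat.le_succ _) h3
    · rw [h3]
      exact (pP d (n + 1)).dir ξ η β hβ

/-- **the theorem** -/
theorem pol_closed (hinj : S_INJ) (hstar : S_STAR) (hpol : S_POL)
    (C : ∀ (G : Type) [Group G], Prop) (hC : ClosedE C)
    (X : Type) (hX : Finite X) (G : Type) [Group G] (f : G →* Equiv.Perm (List X))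
    (hf : Function.Injective f) (S : Set G) (hS : Subgroup.closure S = ⊤)
    (hT : ∀ s ∈ S, IsTree (f s))
    (hB : ∀ s ∈ S, (∃ n, IsPol n (f s)) ∨ ((Sections (f s)).Finite ∧ PolActivity (f s))) :
    C G := by
  have hmem : ∀ g, f g ∈ T X := by
    have h1 : Subgroup.closure S ≤ (T X).comap f := by
      rw [Subgroup.closure_le]
      exact hT
    intro g
    have h2 : g ∈ Subgroup.closure S := by rw [hS]; exact Subgroup.mem_top g
    exact h1 h2
  rcases isEmpty_or_nonempty X with hE | ⟨⟨d⟩⟩
  · have h1 : ∀ g : G, f g = 1 := by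
      intro g
      apply Equiv.ext
      intro w
      cases w with
      | nil => exact apply_nil (hmem g)
      | cons x _ => exact (hE.false x).elim
    have h2 : Subsingleton G := ⟨fun a b => hf ((h1 a).trans (h1 b).symm)⟩
    exact finite_closed C hC.base Pool.Agent.Y430.SS.t_lf G
  · let f' : G →* T X := f.codRestrict (T X) hmem
    have hf' : Function.Injective f' := fun a b h => hf (congrArg Subtype.val h)
    have h0 : C (HH d 0) := by
      rw [HH_zero]
      exact Pool.Agent.Y430.SS.t_lf C hC.base _ lf_Fn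
    have h1 : C (HH d 1) := by
      rw [HH_one]
      exact HB_closed d C hC.base Pool.Agent.Y812.SS.t_wr Pool.Agent.Y430.SS.t_lf
        Pool.Agent.Y430.SS.t_pow Pool.Agent.Y179.SS.t_free (t_lim Pool.Agent.Y812.SS.t_wr)
        Pool.Agent.Y430.SS.t_union
    have hCH : ∀ n, C (HH d n) := fun n =>
      (C_HH_all d hinj hstar hC h0 h1 n).1 n (Nat.le_succ n)
    let K : ℕ → Subgroup G := fun N => (HH d N).comap f'
    have hK : Monotone K := fun m n h g hg => HH_mono d h hg
    have hKS : ∀ s ∈ S, ∃ N, s ∈ K N := by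
      intro s hs
      obtain ⟨n, hn⟩ : ∃ n, IsPol n (f s) := by
        rcases hB s hs with h | ⟨h, h'⟩
        · exact h
        · exact hpol X hX (f s) (hT s hs) h h'
      exact ⟨n + 1, pol_mem d n (f s) (hT s hs) hn⟩
    let U : Subgroup G :=
      { carrier := {g | ∃ N, g ∈ K N}
        one_mem' := ⟨0, one_mem _⟩
        mul_mem' := by
          rintro a b ⟨m, hm⟩ ⟨n, hn⟩
          exact ⟨max m n, mul_mem (hK (le_max_left m n) hm) (hK (le_max_right m n) hn)⟩
        inv_mem' := by
          rintro a ⟨m, hm⟩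
          exact ⟨m, inv_mem hm⟩ }
    have hU : Subgroup.closure S ≤ U := by
      rw [Subgroup.closure_le]
      exact hKS
    have hall : ∀ g, ∃ N, g ∈ K N := by
      intro g
      have h2 : g ∈ Subgroup.closure S := by rw [hS]; exact Subgroup.mem_top g
      exact hU h2
    refine Pool.Agent.Y430.SS.t_union C hC.base G K hK hall ?_
    intro N
    let φ : K N →* HH d N :=
      { toFun := fun g => ⟨f' g.1, g.2⟩
        map_one' := Subtype.ext (map_one f')
        map_mul' := fun a b => Subtype.ext (map_mul f' a.1 b.1) }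
    refine hC.base.of_injective _ _ φ ?_ (hCH N)
    intro a b hab
    exact Subtype.ext (hf' (congrArg Subtype.val hab))

end Pool.Agent.N510.PA
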