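import Pool.Agent.N510.PA.Bas

/-!
# The hierarchy is in the class
-/

set_option autoImplicit false
set_option linter.unusedSectionVars false
set_option linter.unusedVariables false

open Classical

namespace Pool.Agent.N510.PA

open Pool.Agent.Y110.FJ (ClosedE)
open Pool.Agent.Y331.SS (Kn Kn_zero mem_Kn_succ Kn_mono dies_iff C_Kn wmap wmap_s wmap_p t_lim)
open Pool.Agent.Y462.SS hiding psi psi_iA iA dl dl_mul psi_dl_s_ray psi_dl_s_off psi_dl_p EN
  tau_iA dl_eq_one dies_of_tau
open Pool.Agent.Y524L hiding Rel Gm pr pr_surjective iA iP iA_eq_iP shP psiA psiP psi0 psi0_rel psi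
  psi_pr psi_iA psi_iP cT dl dl_mul root_cT sec_cT_ray sec_cT_off psi_cT_p psi_cT_s psi_dl_p
  psi_dl_s_ray psi_dl_s_off EN tau_iA act_dl tau_dl dies_of_tau

variable {X : Type}

theorem al_add (g : T X) (ζ : ℕ → X) (k l : ℕ) :
    al (shn k ζ) (al ζ g k) l = al ζ g (k + l) := by
  induction l with
  | zero => rfl
  | succ l ih =>
    change sec (al (shn k ζ) (al ζ g k) l) (shn k ζ l) = _
    rw [ih]
    change _ = sec (al ζ g (k + l)) (ζ (k + l))
    rw [shn, add_comm l k]

variable [Finite X] (d : X)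

theorem al_dT_off {H : Subgroup (T X)} (ξ : ℕ → X) (β : ℕ → BT d) (η ζ : ℕ → X)
    (hβ : β ∈ PH d H) (h : ζ ≠ ξ) : ∃ k, al ζ (dT d ξ β η) k ∈ H := by
  obtain ⟨t, ht⟩ := Function.ne_iff.1 h
  clear h
  induction t generalizing ζ ξ β η with
  | zero =>
    refine ⟨1, ?_⟩
    change sec (dT d ξ β η) (ζ 0) ∈ H
    rw [sec_dT_off d ξ β η (ζ 0) ht]
    exact hβ.2 0 _
  | succ t ih =>
    by_cases h0 : ζ 0 = ξ 0
    · obtain ⟨k, h⟩ := ih (sh ξ) (sh β) (sh η) (sh ζ) (sh_mem_PH d hβ) ht
      refine ⟨k + 1, ?_⟩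
      rw [← al_sh, h0, sec_dT_ray]
      exact h
    · refine ⟨1, ?_⟩
      change sec (dT d ξ β η) (ζ 0) ∈ H
      rw [sec_dT_off d ξ β η (ζ 0) h0]
      exact hβ.2 0 _

omit [Finite X] in
theorem al_dep {k : ℕ} : ∀ (g : T X) (ζ : ℕ → X), IsDep k g → al ζ g k = 1 := by
  induction k with
  | zero => exact fun g ζ h => h
  | succ k ih =>
    intro g ζ h
    rw [← al_sh]
    exact ih _ _ (h (ζ 0))

/-- the first pair: finitary and bounded automorphisms -/
theorem pair0 : Pair d (Fn X) (HB d) where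
  le := Fn_le_HB d
  lc := lc_HB d
  dir := fun ξ η β hβ => dT_mem_HB d ξ hβ η
  ray := by
    intro g hg ζ
    obtain ⟨n, hn⟩ := Pool.Agent.Y442.LA.t_nuc X d g hg
    have hfin : ∀ k, al ζ g k ∈ Fn X → ∃ (k : ℕ) (β : ℕ → BT d) (η : ℕ → X), β ∈ PH d (Fn X) ∧
        al ζ g k = dT d (shn k ζ) β η := by
      rintro k ⟨l, hl⟩
      refine ⟨k + l, 1, shn (k + l) ζ, one_mem _, ?_⟩
      rw [← al_add, al_dep _ _ hl, dT_id]
    have h1 := hn (List.ofFn fun i : Fin n => ζ i) (List.length_ofFn)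
    rw [Pool.Agent.Y442.LA.secW_al] at h1
    rcases h1 with h1 | ⟨ξ, β, η, hβ, h1⟩
    · exact hfin n h1
    · by_cases hζ : shn n ζ = ξ
      · exact ⟨n, β, η, hβ, by rw [h1, hζ]⟩
      · obtain ⟨k, hk⟩ := al_dT_off d ξ β η (shn n ζ) hβ hζ
        rw [← h1, al_add] at hk
        exact hfin _ hk

/-- the sequence of the pairs -/
noncomputable def Ps : ℕ → {p : Subgroup (T X) × Subgroup (T X) // Pair d p.1 p.2}
  | 0 => ⟨(Fn X, HB d), pair0 d⟩
  | n + 1 => ⟨((Ps n).1.2, nxt d (Ps n).2), pair_nxt d (Ps n).2⟩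

/-- the hierarchy: finitary automorphisms, bounded automorphisms, ... -/
noncomputable def HH (n : ℕ) : Subgroup (T X) := (Ps d n).1.1

theorem pP (n : ℕ) : Pair d (HH d n) (HH d (n + 1)) := (Ps d n).2

theorem HH_zero : HH d 0 = Fn X := rfl
theorem HH_one : HH d 1 = HB d := rfl
theorem HH_nxt (n : ℕ) : HH d (n + 2) = nxt d (pP d n) := rfl

theorem HH_mono : Monotone (HH d) := monotone_nat_of_le_succ fun n => (pP d n).le

theorem lc_HH (n : ℕ) : LC (HH d n) := by
  cases n with
  | zero => exact lc_Fn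
  | succ n => exact (pP d n).lc

attribute [irreducible] HH

/-! ## states -/

variable (C : ∀ (G : Type) [Group G], Prop)

/-- a star product with centre `HH a` and leaves of degree `N r` over the edge groups of degree
`r < a` maps to a group in the class -/
def St (a : ℕ) (N : ℕ → ℕ) : Prop :=
  ∃ (Q : Type) (_ : Group Q) (α : HH d a →* Q) (c : ∀ r : {r : ℕ // r < a}, PH d (HH d (N r)) →* Q)
    (e : ∀ r : {r : ℕ // r < a}, HH d (N r) →* Q), C Q ∧ Function.Injective α ∧
    (∀ r, Function.Injective (c r)) ∧ (∀ r, Function.Injective (e r)) ∧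
    (∀ (r : {r : ℕ // r < a}) (p : PH d (HH d (N r))) (g : HH d a), p.1 ∈ PH d (HH d r) →
      g.1 = dT d (cr d) p.1 (cr d) → c r p = α g) ∧
    (∀ (r : {r : ℕ // r < a}) (h : HH d (N r)) (g : HH d a), h.1 ∈ HH d r → g.1 = h.1 →
      e r h = α g)

/-- the next state -/
def nx (b : ℕ) (N : ℕ → ℕ) (r : ℕ) : ℕ :=
  if r < b then N r else if r = b then max (N b) (N (b + 1)) else r

variable {C}

theorem St_step (hinj : S_INJ) (hstar : S_STAR) (hC : ClosedE C) (b : ℕ) (N : ℕ → ℕ)
    (hN : ∀ r, r ≤ N r) (hΓ : C (Gm d (HH d b) (HH d (b + 1))))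
    (hH : ∀ r, r < b + 2 → C (HH d (N r))) (h : St d C (N (b + 1)) (nx b N)) :
    St d C (b + 2) N := by
  obtain ⟨Q, _, α, c, e, hQ, hα, hc, he, h1, h2⟩ := h
  have hb1 : b + 1 ≤ N (b + 1) := hN (b + 1)
  have hbM : b < N (b + 1) := hb1
  have hnb : nx b N b = max (N b) (N (b + 1)) := by
    unfold nx
    rw [if_neg (lt_irrefl b), if_pos rfl]
  have hnlt : ∀ r, r < b → nx b N r = N r := fun r hr => if_pos hr
  have hle1 : HH d (b + 1) ≤ HH d (N (b + 1)) := HH_mono d hb1
  have hle2 : HH d (b + 1) ≤ HH d (nx b N b) :=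
    HH_mono d (hb1.trans (by rw [hnb]; exact le_max_right _ _))
  obtain ⟨f, hf1, hf2⟩ := Gm_univ d (HH d b) (HH d (b + 1))
    (α.comp (Subgroup.inclusion hle1))
    ((c ⟨b, hbM⟩).comp (Subgroup.inclusion (PH_mono d hle2)))
    (fun a p hp hap => (h1 ⟨b, hbM⟩ ⟨p.1, PH_mono d hle2 p.2⟩ ⟨a.1, hle1 a.2⟩ hp hap).symm)
  have key : ∀ r : {r : ℕ // r < b + 2}, ∃ (c' : PH d (HH d (N r)) →* Q)
      (e' : HH d (N r) →* Q), Function.Injective c' ∧ Function.Injective e' ∧
      (∀ (p : PH d (HH d (N r))) (q : PH d (HH d (b + 1))), q.1 = p.1 →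
        p.1 ∈ PH d (HH d r) → c' p = f (iP d _ _ q)) ∧
      (∀ (h : HH d (N r)) (g : HH d (b + 1)), g.1 = h.1 → h.1 ∈ HH d r →
        e' h = f (iA d _ _ g)) := by
    rintro ⟨r, hr⟩
    rcases Nat.lt_or_ge b r with hrb | hrb
    · have hrb' : r = b + 1 := by omega
      subst hrb'
      have hle3 : HH d (N (b + 1)) ≤ HH d (nx b N b) :=
        HH_mono d (by rw [hnb]; exact le_max_right _ _)
      refine ⟨(c ⟨b, hbM⟩).comp (Subgroup.inclusion (PH_mono d hle3)), α,
        (hc _).comp (Subgroup.inclusion_injective _), hα, ?_, ?_⟩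
      · intro p q hqp hp
        rw [hf2]
        exact congrArg (c ⟨b, hbM⟩) (Subtype.ext hqp.symm)
      · intro h g hgh hh
        rw [hf1]
        exact congrArg α (Subtype.ext hgh.symm)
    · have hrM : r < N (b + 1) := lt_of_le_of_lt hrb hbM
      have hle3 : HH d (N r) ≤ HH d (nx b N r) := by
        apply HH_mono d
        rcases hrb.lt_or_eq with h | h
        · rw [hnlt r h]
        · rw [h, hnb]
          exact le_max_left _ _
      refine ⟨(c ⟨r, hrM⟩).comp (Subgroup.inclusion (PH_mono d hle3)),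
        (e ⟨r, hrM⟩).comp (Subgroup.inclusion hle3),
        (hc _).comp (Subgroup.inclusion_injective _),
        (he _).comp (Subgroup.inclusion_injective _), ?_, ?_⟩
      · intro p q hqp hp
        rw [hf2]
        have hg : dT d (cr d) p.1 (cr d) ∈ HH d (N (b + 1)) :=
          HH_mono d (show r + 1 ≤ N (b + 1) by omega) ((pP d r).dir _ _ _ hp)
        have h3 := h1 ⟨r, hrM⟩ ⟨p.1, PH_mono d hle3 p.2⟩ ⟨_, hg⟩ hp rfl
        have h4 := h1 ⟨b, hbM⟩ ⟨q.1, PH_mono d hle2 q.2⟩ ⟨_, hg⟩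
          (by change q.1 ∈ _; rw [hqp]; exact PH_mono d (HH_mono d hrb) hp) (by
            change dT d (cr d) p.1 (cr d) = dT d (cr d) q.1 (cr d)
            rw [hqp])
        exact h3.trans h4.symm
      · intro h g hgh hh
        rw [hf1]
        exact h2 ⟨r, hrM⟩ ⟨h.1, hle3 h.2⟩ ⟨g.1, hle1 g.2⟩ hh hgh
  choose c' e' hc' he' h1' h2' using key
  have hD : Dat d (pP d b) (fun r : {r : ℕ // r < b + 2} => HH d r)
      (fun r : {r : ℕ // r < b + 2} => HH d (N r)) C 0 := by
    refine ⟨Q, inferInstance, f, c', e', hQ, ?_, hc', he', h1', h2'⟩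
    intro γ hγ
    rw [Kn_zero, Subgroup.mem_bot] at hγ
    rw [hγ, map_one]
  have hs := star_nxt (J := {r : ℕ // r < b + 2}) (R := fun r => HH d r.1)
    (M := fun r => HH d (N r.1)) d (pP d b) hinj hstar hC hΓ
    (fun r => hH r.1 r.2) (fun r => HH_mono d (by have := r.2; omega))
    (fun r => HH_mono d (hN r.1)) (fun r => lc_HH d r.1) (fun r => lc_HH d _) hD
  rw [← HH_nxt] at hs
  exact hs

theorem St_one (hinj : S_INJ) (hstar : S_STAR) (hC : ClosedE C) (N : ℕ → ℕ)
    (h1 : C (HH d 1)) (hH : C (HH d (N 0))) : St d C 1 N := by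
  have hr : ∀ r : {r : ℕ // r < 1}, r.1 = 0 := fun r => by have := r.2; omega
  have hHr : ∀ r : {r : ℕ // r < 1}, HH d r = Fn X := fun r => by rw [hr r, HH_zero]
  have hP0 : Pair d (Fn X) (HH d 1) := by
    rw [HH_one]
    exact pair0 d
  obtain ⟨Q', _, α', c'', e'', hQ', h3, h4, h5, h6, h7⟩ := base_star
    (M := fun r : {r : ℕ // r < 1} => HH d (N r)) d hinj hstar hC hP0 h1 (fun r => by
      rw [hr r]
      exact hH) (fun r => by
      rw [← HH_zero d]
      exact HH_mono d (Nat.zero_le _))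
  refine ⟨Q', inferInstance, α', c'', e'', hQ', h3, h4, h5, ?_, ?_⟩
  · intro r p g hp hg
    exact h6 r p g (PH_mono d (le_of_eq (hHr r)) hp) hg
  · intro r h g hh hg
    exact h7 r h g (le_of_eq (hHr r) hh) hg

/-! ## the induction -/

/-- lexicographic induction -/
theorem lex_ind {S : Type} (f : S → ℕ → ℕ) (n : ℕ) : ∀ (P : S → Prop),
    (∀ s, (∀ t, (∃ v, v < n ∧ f t v < f s v ∧ ∀ w, v < w → w < n → f t w = f s w) → P t) → P s) →
    ∀ s, P s := by
  induction n with
  | zero =>
    intro P h s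
    exact h s (by rintro t ⟨v, hv, -⟩; omega)
  | succ n ih =>
    intro P h
    have key : ∀ k s, f s n = k → P s := by
      intro k
      induction k using Nat.strong_induction_on with
      | _ k ihk =>
        refine ih (fun s => f s n = k → P s) ?_
        intro s hs hk
        apply h
        rintro t ⟨v, hv, hv2, hv3⟩
        rcases Nat.lt_or_ge v n with hvn | hvn
        · have h4 : f t n = f s n := hv3 n hvn (Nat.lt_succ_self n)
          exact hs t ⟨v, hvn, hv2, fun w hw hw' => hv3 w hw (by omega)⟩ (h4.trans hk)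
        · have h4 : v = n := by omega
          subst h4
          exact ihk _ (hk ▸ hv2) t rfl
    exact fun s => key _ s rfl

/-- the digits of a state -/
def dg (s : ℕ × (ℕ → ℕ)) (v : ℕ) : ℕ :=
  (if v < s.1 then v + 1 else 0) +
    (Finset.range (min s.1 v)).sup fun r => if v ≤ s.2 r then r + 1 else 0

theorem sup_le_v (a v : ℕ) (N : ℕ → ℕ) :
    ((Finset.range (min a v)).sup fun r => if v ≤ N r then r + 1 else 0) ≤ v := by
  apply Finset.sup_le
  intro r hr
  rw [Finset.mem_range] at hr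
  have := min_le_right a v
  split_ifs <;> omega

theorem dg_lt (b : ℕ) (N : ℕ → ℕ) (hN : b + 1 ≤ N (b + 1)) :
    dg (N (b + 1), nx b N) (N (b + 1)) < dg (b + 2, N) (N (b + 1)) := by
  unfold dg
  simp only
  rw [if_neg (lt_irrefl _), min_self, zero_add]
  rcases hN.lt_or_eq with h | h
  · -- the top entry is not trivial
    rw [if_neg (show ¬ N (b + 1) < b + 2 by omega), zero_add]
    have h1 : b + 2 ≤ (Finset.range (min (b + 2) (N (b + 1)))).sup
        fun r => if N (b + 1) ≤ N r then r + 1 else 0 := by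
      have h2 : (fun r => if N (b + 1) ≤ N r then r + 1 else 0) (b + 1) = b + 2 := if_pos le_rfl
      rw [← h2]
      exact Finset.le_sup (f := fun r => if N (b + 1) ≤ N r then r + 1 else 0)
        (Finset.mem_range.2 (by omega))
    refine lt_of_lt_of_le (Nat.lt_succ_of_le (Finset.sup_le fun r hr => ?_)) h1
    rw [Finset.mem_range] at hr
    split_ifs with h3
    · unfold nx at h3
      split_ifs at h3 with h4 h5 <;> omega
    · omega
  · -- the top entry is trivial
    rw [if_pos (show N (b + 1) < b + 2 by omega)]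
    have h1 := sup_le_v (N (b + 1)) (N (b + 1)) (nx b N)
    rw [min_self] at h1
    omega

theorem dg_eq (b : ℕ) (N : ℕ → ℕ) (hN : b + 1 ≤ N (b + 1)) (v : ℕ) (hv : N (b + 1) < v) :
    dg (N (b + 1), nx b N) v = dg (b + 2, N) v := by
  unfold dg
  simp only
  rw [if_neg (show ¬ v < N (b + 1) by omega), if_neg (show ¬ v < b + 2 by omega), zero_add,
    zero_add]
  apply le_antisymm
  · apply Finset.sup_le
    intro r hr
    rw [Finset.mem_range] at hr
    split_ifs with h3
    · have hrb : r ≤ b ∧ v ≤ N r := by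
        unfold nx at h3
        split_ifs at h3 with h4 h5
        · exact ⟨by omega, h3⟩
        · subst h5
          exact ⟨le_rfl, by omega⟩
        · omega
      have h2 : (fun r => if v ≤ N r then r + 1 else 0) r = r + 1 := if_pos hrb.2
      rw [← h2]
      exact Finset.le_sup (f := fun r => if v ≤ N r then r + 1 else 0)
        (Finset.mem_range.2 (by omega))
    · exact Nat.zero_le _
  · apply Finset.sup_le
    intro r hr
    rw [Finset.mem_range] at hr
    split_ifs with h3
    · have hrb : r ≤ b := by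
        by_contra hcon
        have : r = b + 1 := by omega
        rw [this] at h3
        omega
      have h4 : v ≤ nx b N r := by
        unfold nx
        rcases hrb.lt_or_eq with h | h
        · rw [if_pos h]
          exact h3
        · subst h
          rw [if_neg (lt_irrefl _), if_pos rfl]
          exact h3.trans (le_max_left _ _)
      have h2 : (fun r => if v ≤ nx b N r then r + 1 else 0) r = r + 1 := if_pos h4
      rw [← h2]
      exact Finset.le_sup (f := fun r => if v ≤ nx b N r then r + 1 else 0)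
        (Finset.mem_range.2 (by omega))
    · exact Nat.zero_le _

/-- **all states are good** -/
theorem St_all (hinj : S_INJ) (hstar : S_STAR) (hC : ClosedE C) (n : ℕ)
    (hH : ∀ m ≤ n, C (HH d m)) (hΓ : ∀ b, b + 2 ≤ n → C (Gm d (HH d b) (HH d (b + 1)))) :
    ∀ s : ℕ × (ℕ → ℕ), 1 ≤ s.1 → s.1 ≤ n → (∀ r, r ≤ s.2 r) → (∀ r < s.1, s.2 r ≤ n) →
      St d C s.1 s.2 := by
  refine lex_ind dg (n + 1) _ ?_
  rintro ⟨a, N⟩ ih h1 h2 h3 h4
  simp only at h1 h2 h3 h4 ⊢
  obtain rfl | ⟨b, rfl⟩ : a = 1 ∨ ∃ b, a = b + 2 := by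
    rcases Nat.lt_or_ge a 2 with h | h
    · left; omega
    · right; exact ⟨a - 2, by omega⟩
  · exact St_one d hinj hstar hC N (hH 1 h2) (hH _ (h4 0 (by omega)))
  · have hMn : N (b + 1) ≤ n := h4 (b + 1) (by omega)
    have hb1 : b + 1 ≤ N (b + 1) := h3 (b + 1)
    refine St_step d hinj hstar hC b N h3 (hΓ b h2) (fun r hr => hH _ (h4 r hr)) ?_
    refine ih (N (b + 1), nx b N) ⟨N (b + 1), by omega, dg_lt b N hb1,
      fun w hw _ => dg_eq b N hb1 w hw⟩ (by simp only; omega) hMn ?_ ?_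
    · intro r
      simp only
      unfold nx
      split_ifs with h5 h6
      · exact h3 r
      · subst h6
        exact (h3 r).trans (le_max_left _ _)
      · exact le_rfl
    · intro r hr
      simp only at hr ⊢
      unfold nx
      split_ifs with h5 h6
      · exact h4 r (by omega)
      · exact max_le (h4 b (by omega)) hMn
      · omega

/-- the cover is in the class -/
theorem C_cov (hinj : S_INJ) (hstar : S_STAR) (hC : ClosedE C) (b : ℕ)
    (hH : ∀ m ≤ b + 1, C (HH d m)) (hΓ : ∀ b', b' < b → C (Gm d (HH d b') (HH d (b' + 1)))) :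
    C (Gm d (HH d b) (HH d (b + 1))) := by
  obtain ⟨Q, _, α, c, e, hQ, hα, hc, he, h1, h2⟩ := St_all d hinj hstar hC (b + 1) hH
    (fun b' h => hΓ b' (by omega)) (b + 1, fun r => if r = b then b + 1 else r)
    (by simp only; omega) le_rfl (fun r => by simp only; split_ifs <;> omega)
    (fun r hr => by simp only at hr ⊢; split_ifs <;> omega)
  have hb : (fun r => if r = b then b + 1 else r : ℕ → ℕ) b = b + 1 := if_pos rfl
  obtain ⟨c0, hc0⟩ : ∃ c0 : PH d (HH d (b + 1)) →* Q, ∀ (p : PH d (HH d (b + 1)))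
      (g : HH d (b + 1)), p.1 ∈ PH d (HH d b) → g.1 = dT d (cr d) p.1 (cr d) → c0 p = α g := by
    have h3 := h1 ⟨b, Nat.lt_succ_self b⟩
    have h4 : ∀ m, m = b + 1 → ∀ c1 : PH d (HH d m) →* Q, (∀ (p : PH d (HH d m))
      (g : HH d (b + 1)), p.1 ∈ PH d (HH d b) → g.1 = dT d (cr d) p.1 (cr d) → c1 p = α g) →
      ∃ c0 : PH d (HH d (b + 1)) →* Q, ∀ (p : PH d (HH d (b + 1)))
      (g : HH d (b + 1)), p.1 ∈ PH d (HH d b) → g.1 = dT d (cr d) p.1 (cr d) → c0 p = α g := by
      rintro _ rfl c1 h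
      exact ⟨c1, h⟩
    exact h4 _ hb _ h3
  obtain ⟨f, hf1, hf2⟩ := Gm_univ d (HH d b) (HH d (b + 1)) α c0
    (fun a p hp hap => (hc0 p a hp hap).symm)
  -- the cover as a star product
  let k : ∀ _ : Unit, PH d (HH d b) →* HH d (b + 1) := fun _ =>
    (toT d (HH d b)).codRestrict (HH d (b + 1)) (fun p => (pP d b).dir _ _ _ p.2)
  let l : ∀ _ : Unit, PH d (HH d b) →* PH d (HH d (b + 1)) := fun _ =>
    Subgroup.inclusion (PH_mono d (pP d b).le)
  have hsp : IsSP (L := fun _ : Unit => PH d (HH d (b + 1))) (E := fun _ : Unit => PH d (HH d b))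
      k l (iA d (HH d b) (HH d (b + 1))) (fun _ => iP d (HH d b) (HH d (b + 1))) := by
    refine ⟨fun _ p => ?_, ?_, ?_⟩
    · exact iA_eq_iP d _ _ _ _ p.2 rfl
    · rw [eq_top_iff]
      rintro γ -
      induction γ using Gm_induction d (HH d b) (HH d (b + 1)) with
      | hA a => exact Subgroup.subset_closure (Or.inl ⟨a, rfl⟩)
      | hP p => exact Subgroup.subset_closure (Or.inr (Set.mem_iUnion.2 ⟨(), p, rfl⟩))
      | hm x y hx hy => exact mul_mem hx hy
    · intro G _ f g h
      obtain ⟨F, hF1, hF2⟩ := Gm_univ d (HH d b) (HH d (b + 1)) f (g ()) (fun a p hp hap => by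
        have h5 := h () ⟨p.1, hp⟩
        have h6 : k () ⟨p.1, hp⟩ = a := Subtype.ext hap.symm
        rw [h6] at h5
        exact h5)
      exact ⟨F, hF1, fun _ => hF2⟩
  have hki : ∀ j, Function.Injective (k j) := by
    intro j x y hxy
    exact toT_inj d _ (congrArg Subtype.val hxy)
  obtain ⟨ha, hb'⟩ := hinj _ _ _ _ _ _ _ _ _ hsp hki (fun _ => Subgroup.inclusion_injective _)
  refine hstar C hC _ _ _ _ _ _ _ _ _ hsp ha hb' (hH (b + 1) le_rfl)
    (fun _ => Pool.Agent.Y442.LA.t_phc C hC.base X d _ (hH (b + 1) le_rfl)) fun j => ?_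
  refine ⟨Q, inferInstance, f, hQ, fun p hp => ?_⟩
  rw [hf1] at hp
  rw [hα (hp.trans (map_one _).symm), map_one]

theorem C_HH_all (hinj : S_INJ) (hstar : S_STAR) (hC : ClosedE C) (h0 : C (HH d 0))
    (h1 : C (HH d 1)) : ∀ n, (∀ m ≤ n + 1, C (HH d m)) ∧
      ∀ b < n, C (Gm d (HH d b) (HH d (b + 1))) := by
  intro n
  induction n with
  | zero =>
    refine ⟨fun m hm => ?_, fun b hb => absurd hb (Nat.not_lt_zero b)⟩
    obtain rfl | rfl : m = 0 ∨ m = 1 := by omega
    · exact h0
    · exact h1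
  | succ n ih =>
    have h2 := C_cov d hinj hstar hC n ih.1 ih.2
    have h3 : C (HH d (n + 2)) := by
      rw [HH_nxt]
      have h4 : C (Gm d (HH d n) (HH d (n + 1)) ⧸ (tau (psi d (pP d n))).ker) := by
        refine t_lim Pool.Agent.Y812.SS.t_wr C hC.base X _ inferInstance (psi d (pP d n)) h2 _ ?_
        intro γ
        rw [MonoidHom.mem_ker]
        exact ⟨dies_of_tau d (pP d n), tau_of_dies _⟩
      exact hC.base.of_injective _ _
        (QuotientGroup.quotientKerEquivRange (tau (psi d (pP d n)))).symm.toMonoidHom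
        (QuotientGroup.quotientKerEquivRange (tau (psi d (pP d n)))).symm.injective h4
    refine ⟨fun m hm => ?_, fun b hb => ?_⟩
    · rcases Nat.lt_or_ge m (n + 2) with h | h
      · exact ih.1 m (by omega)
      · have : m = n + 2 := by omega
        rw [this]
        exact h3
    · rcases Nat.lt_or_ge b n with h | h
      · exact ih.2 b h
      · have : b = n := by omega
        rw [this]
        exact h2

end Pool.Agent.N510.PA
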