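import Pool.Agent.N510.PA.Stm

/-!
# Vertex groups embed in a star product (van der Waerden's trick)

Sub-task PA/Inj of helper510, written by helper85.
-/

set_option autoImplicit false

namespace Pool.Agent.N510.PA.Inj

open Pool.Agent.N510.PA

/-- a choice of representatives for the left cosets of the image of an injective homomorphism -/
theorem repr {A E : Type} [Group A] [Group E] (k : E →* A) (hk : Function.Injective k) :
    ∃ (r : A → A) (e : A → E), (∀ a, a = r a * k (e a)) ∧ (∀ a x, r (a * k x) = r a) ∧
      (∀ a x, e (a * k x) = e a * x) := by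
  classical
  set r : A → A := fun a => ((a : A ⧸ k.range)).out with hr
  have h1 : ∀ a, ∃ x : E, k x = (r a)⁻¹ * a := by
    intro a
    have : (r a)⁻¹ * a ∈ k.range := by
      rw [← QuotientGroup.eq]
      simp [hr]
    exact this
  choose e he using h1
  have h2 : ∀ a, a = r a * k (e a) := by
    intro a; rw [he]; group
  have h3 : ∀ a x, r (a * k x) = r a := by
    intro a x
    have : ((a * k x : A) : A ⧸ k.range) = (a : A ⧸ k.range) := by
      rw [QuotientGroup.eq]
      refine ⟨x⁻¹, ?_⟩
      simp
    simp only [hr, this]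
  refine ⟨r, e, h2, h3, ?_⟩
  intro a x
  apply hk
  rw [he, h3, map_mul, he]; group

section

variable {J A : Type} {L E : J → Type} [Group A] [∀ j, Group (L j)] [∀ j, Group (E j)]

/-- right multiplication by the inverse on the first coordinate -/
def alpha : A →* Equiv.Perm (A × (∀ j, L j)) where
  toFun x :=
    { toFun := fun p => (p.1 * x⁻¹, p.2)
      invFun := fun p => (p.1 * x, p.2)
      left_inv := fun p => by simp
      right_inv := fun p => by simp }
  map_one' := by ext p <;> simp
  map_mul' x y := by ext p <;> simp [mul_assoc]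

/-- right multiplication by the inverse on the coordinate `j` -/
def gamma [DecidableEq J] (j : J) : L j →* Equiv.Perm (A × (∀ j, L j)) where
  toFun x :=
    { toFun := fun p => (p.1, Function.update p.2 j (p.2 j * x⁻¹))
      invFun := fun p => (p.1, Function.update p.2 j (p.2 j * x))
      left_inv := fun p => by simp
      right_inv := fun p => by simp }
  map_one' := by ext p <;> simp
  map_mul' x y := by ext p <;> simp [mul_assoc]

end

theorem repr2 {A E : Type} [Group A] [Group E] (k : E →* A) (hk : Function.Injective k) :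
    ∃ (r : A → A) (e : A → E), (∀ a, a = r a * k (e a)) ∧ (∀ a x, r (a * k x) = r a) ∧
      (∀ a x, e (a * k x) = e a * x) ∧ (∀ a y, e (r a * k y) = y) ∧
      (∀ a y, r (r a * k y) = r a) := by
  obtain ⟨r, e, h1, h2, h3⟩ := repr k hk
  have h4 : ∀ a, r a = a * k (e a)⁻¹ := by
    intro a
    rw [map_inv]
    exact eq_mul_inv_of_mul_eq (h1 a).symm
  refine ⟨r, e, h1, h2, h3, ?_, ?_⟩
  · intro a y
    rw [h3, h4 a, h3]; simp
  · intro a y
    rw [h2, h4 a, h2, ← h4 a]

theorem main : S_INJ := by
  classical
  intro J A W L E _ _ _ _ k l a b h hk hl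
  -- representatives
  choose r e hr1 hr2 hr3 hr4 hr5 using fun j => repr2 (k j) (hk j)
  choose r' e' hr1' hr2' hr3' hr4' hr5' using fun j => repr2 (l j) (hl j)
  -- the swap
  let sw : ∀ j, (A × (∀ j, L j)) → (A × (∀ j, L j)) := fun j p =>
    (r j p.1 * k j (e' j (p.2 j)), Function.update p.2 j (r' j (p.2 j) * l j (e j p.1)))
  have hsw : ∀ j p, sw j (sw j p) = p := by
    intro j p
    simp only [sw, Function.update_self, Function.update_idem]
    rw [hr5, hr4', ← hr1, hr5', hr4, ← hr1']
    simp
  let s : ∀ j, Equiv.Perm (A × (∀ j, L j)) := fun j => ⟨sw j, sw j, hsw j, hsw j⟩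
  let beta : ∀ j, L j →* Equiv.Perm (A × (∀ j, L j)) := fun j =>
    (MulAut.conj (s j)).toMonoidHom.comp (gamma j)
  have hbeta : ∀ j (x : E j), alpha (k j x) = beta j (l j x) := by
    intro j x
    have hs : (s j)⁻¹ = s j := by
      rw [inv_eq_iff_mul_eq_one]
      ext p <;> simp [s, hsw]
    ext p : 1
    simp only [beta, MonoidHom.comp_apply, MulEquiv.coe_toMonoidHom, MulAut.conj_apply,
      Equiv.Perm.mul_apply]
    rw [hs]
    simp only [s, sw, gamma, alpha, Equiv.coe_fn_mk, MonoidHom.coe_mk, OneHom.coe_mk,
      Function.update_self, Function.update_idem]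
    have key2 : r' j (p.2 j) * l j (e j p.1) * (l j x)⁻¹
        = r' j (p.2 j) * l j (e j p.1 * x⁻¹) := by
      rw [map_mul, map_inv, mul_assoc]
    rw [key2]
    rw [hr4', hr5, hr5', hr4, ← hr1', Function.update_eq_self, map_mul, ← mul_assoc, ← hr1, map_inv]
  obtain ⟨F, hF1, hF2⟩ := h.univ (Equiv.Perm (A × (∀ j, L j))) alpha beta hbeta
  constructor
  · rw [injective_iff_map_eq_one]
    intro x hx
    have h1 : alpha x = (1 : Equiv.Perm (A × (∀ j, L j))) := by rw [← hF1, hx, map_one]
    have h2 := congrArg (fun f : Equiv.Perm (A × (∀ j, L j)) => (f (1, fun _ => 1)).1) h1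
    simpa [alpha] using h2
  · intro j
    rw [injective_iff_map_eq_one]
    intro x hx
    have h1 : beta j x = 1 := by rw [← hF2, hx, map_one]
    have h3 : gamma j x = (1 : Equiv.Perm (A × (∀ j, L j))) := by
      have := h1
      simp only [beta, MonoidHom.comp_apply, MulEquiv.coe_toMonoidHom, MulAut.conj_apply] at this
      exact conj_eq_one_iff.mp this
    have h2 := congrArg (fun f : Equiv.Perm (A × (∀ j, L j)) => (f (1, fun _ => 1)).2 j) h3
    simpa [gamma] using h2

end Pool.Agent.N510.PA.Inj
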