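import Pool.Agent.N510.PA.Stm

/-!
# Directed colimits of quotients; star products as quotients of free products
-/

set_option autoImplicit false

namespace Pool.Agent.N510.PA

open Pool.Agent.Y462.SS (Closed)

section nc

variable {PP : Type} [Group PP] {I : Type} [Preorder I] [Nonempty I]

theorem mem_nc_iUnion (hI : ∀ i j : I, ∃ k, i ≤ k ∧ j ≤ k) (S : I → Set PP) (hS : Monotone S)
    (x : PP) : x ∈ Subgroup.normalClosure (⋃ i, S i) ↔
      ∃ i, x ∈ Subgroup.normalClosure (S i) := by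
  constructor
  · intro hx
    have h1 : Directed (· ≤ ·) fun i => Subgroup.normalClosure (S i) := by
      intro i j
      obtain ⟨k, hk, hk'⟩ := hI i j
      exact ⟨k, Subgroup.normalClosure_mono (hS hk), Subgroup.normalClosure_mono (hS hk')⟩
    have h2 : (⨆ i, Subgroup.normalClosure (S i)).Normal := by
      constructor
      intro a ha g
      rw [Subgroup.mem_iSup_of_directed h1] at ha ⊢
      obtain ⟨i, hi⟩ := ha
      exact ⟨i, Subgroup.Normal.conj_mem inferInstance a hi g⟩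
    have h3 : Subgroup.normalClosure (⋃ i, S i) ≤ ⨆ i, Subgroup.normalClosure (S i) := by
      apply Subgroup.normalClosure_le_normal
      apply Set.iUnion_subset
      intro i a ha
      exact (le_iSup (fun i => Subgroup.normalClosure (S i)) i) (Subgroup.subset_normalClosure ha)
    exact (Subgroup.mem_iSup_of_directed h1).1 (h3 hx)
  · rintro ⟨i, hi⟩
    exact Subgroup.normalClosure_mono (Set.subset_iUnion S i) hi

/-- quotients by increasing normal subgroups -/
theorem quot_colim0 {C : ∀ (G : Type) [Group G], Prop} (hC : Closed C)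
    (hI : ∀ i j : I, ∃ k, i ≤ k ∧ j ≤ k) (K : I → Subgroup PP) [hn : ∀ i, (K i).Normal]
    (hK : Monotone K) (M : Subgroup PP) [M.Normal] (hM : ∀ x, x ∈ M ↔ ∃ i, x ∈ K i)
    (h : ∀ i, C (PP ⧸ K i)) : C (PP ⧸ M) := by
  have hle : ∀ i, K i ≤ M := fun i x hx => (hM x).2 ⟨i, hx⟩
  refine hC.colim I hI (fun n => PP ⧸ K n)
    (fun i j h => QuotientGroup.map (K i) (K j) (MonoidHom.id PP) (hK h))
    (PP ⧸ M) (fun i => QuotientGroup.map (K i) M (MonoidHom.id PP) (hle i)) ?_ ?_ ?_ ?_ ?_ h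
  · intro i h x
    obtain ⟨y, rfl⟩ := QuotientGroup.mk_surjective x
    rfl
  · intro i j k h h' x
    obtain ⟨y, rfl⟩ := QuotientGroup.mk_surjective x
    rfl
  · intro i j h x
    obtain ⟨y, rfl⟩ := QuotientGroup.mk_surjective x
    rfl
  · intro y
    obtain ⟨z, rfl⟩ := QuotientGroup.mk_surjective y
    obtain ⟨i⟩ := ‹Nonempty I›
    exact ⟨i, QuotientGroup.mk z, rfl⟩
  · intro i x hx
    obtain ⟨y, rfl⟩ := QuotientGroup.mk_surjective x
    have h1 : ((y : PP) : PP ⧸ M) = 1 := hx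
    obtain ⟨j, hj⟩ := (hM y).1 ((QuotientGroup.eq_one_iff _).1 h1)
    obtain ⟨k, hk, hk'⟩ := hI i j
    exact ⟨k, hk, (QuotientGroup.eq_one_iff _).2 (hK hk' hj)⟩

/-- quotients by increasing normal subgroups -/
theorem quot_colim {C : ∀ (G : Type) [Group G], Prop} (hC : Closed C)
    (hI : ∀ i j : I, ∃ k, i ≤ k ∧ j ≤ k) (S : I → Set PP) (hS : Monotone S)
    (h : ∀ i, C (PP ⧸ Subgroup.normalClosure (S i))) :
    C (PP ⧸ Subgroup.normalClosure (⋃ i, S i)) :=
  quot_colim0 hC hI (fun i => Subgroup.normalClosure (S i))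
    (fun _ _ h => Subgroup.normalClosure_mono (hS h)) _ (mem_nc_iUnion hI S hS) h

end nc

section sp

variable {J Γ : Type} {L E : J → Type} [Group Γ] [∀ j, Group (L j)] [∀ j, Group (E j)]

/-- the free product of all vertex groups -/
abbrev FP (Γ : Type) (L : J → Type) [Group Γ] [∀ j, Group (L j)] : Type :=
  Monoid.Coprod Γ (Monoid.CoprodI L)

/-- the inclusion of a leaf -/
def ofL (Γ : Type) {L : J → Type} [Group Γ] [∀ j, Group (L j)] (j : J) : L j →* FP Γ L :=
  Monoid.Coprod.inr.comp Monoid.CoprodI.of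

/-- the relations for the elements of `s` -/
def SR (k : ∀ j, E j →* Γ) (l : ∀ j, E j →* L j) (s : ∀ j, Set (E j)) (D : Set Γ) :
    Set (FP Γ L) :=
  {x | ∃ γ ∈ D, x = Monoid.Coprod.inl γ} ∪
    {x | ∃ j, ∃ e ∈ s j, x = Monoid.Coprod.inl (k j e) * (ofL Γ j (l j e))⁻¹}

theorem SR_mono {k : ∀ j, E j →* Γ} {l : ∀ j, E j →* L j} {s t : ∀ j, Set (E j)} {D D' : Set Γ}
    (h : ∀ j, s j ⊆ t j) (h' : D ⊆ D') : SR k l s D ⊆ SR k l t D' := by
  rintro x (⟨γ, hγ, rfl⟩ | ⟨j, e, he, rfl⟩)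
  · exact Or.inl ⟨γ, h' hγ, rfl⟩
  · exact Or.inr ⟨j, e, h j he, rfl⟩

/-- homomorphisms from the quotient -/
theorem SR_lift (k : ∀ j, E j →* Γ) (l : ∀ j, E j →* L j) (s : ∀ j, Set (E j)) (D : Set Γ)
    {H : Type} [Group H] (f : Γ →* H) (g : ∀ j, L j →* H) (hD : ∀ γ ∈ D, f γ = 1)
    (hs : ∀ j, ∀ e ∈ s j, f (k j e) = g j (l j e)) :
    ∃ h : FP Γ L ⧸ Subgroup.normalClosure (SR k l s D) →* H,
      (∀ γ : Γ, h (QuotientGroup.mk (Monoid.Coprod.inl γ)) = f γ) ∧
      ∀ j (x : L j), h (QuotientGroup.mk (ofL Γ j x)) = g j x := by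
  obtain ⟨F, hF⟩ : ∃ F : FP Γ L →* H, F = Monoid.Coprod.lift f (Monoid.CoprodI.lift g) :=
    ⟨_, rfl⟩
  have h1 : ∀ γ, F (Monoid.Coprod.inl γ) = f γ := by
    intro γ
    rw [hF, Monoid.Coprod.lift_apply_inl]
  have h2 : ∀ j (x : L j), F (ofL Γ j x) = g j x := by
    intro j x
    rw [hF]
    change Monoid.Coprod.lift f (Monoid.CoprodI.lift g) (Monoid.Coprod.inr _) = _
    rw [Monoid.Coprod.lift_apply_inr, Monoid.CoprodI.lift_of]
  have hle : Subgroup.normalClosure (SR k l s D) ≤ F.ker := by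
    apply Subgroup.normalClosure_le_normal
    rintro x (⟨γ, hγ, rfl⟩ | ⟨j, e, he, rfl⟩)
    · exact (h1 γ).trans (hD γ hγ)
    · change F _ = 1
      rw [map_mul, map_inv, h1, h2, hs j e he, mul_inv_cancel]
  exact ⟨QuotientGroup.lift _ F (fun x hx => hle hx), h1, h2⟩

/-- induction -/
theorem SR_gen (N : Subgroup (FP Γ L)) [N.Normal] :
    Subgroup.closure (Set.range (fun γ : Γ => (QuotientGroup.mk (Monoid.Coprod.inl γ) : FP Γ L ⧸ N))
      ∪ ⋃ j, Set.range (fun x : L j => (QuotientGroup.mk (ofL Γ j x) : FP Γ L ⧸ N))) = ⊤ := by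
  rw [eq_top_iff]
  rintro x -
  obtain ⟨y, rfl⟩ := QuotientGroup.mk_surjective x
  induction y using Monoid.Coprod.induction_on with
  | inl γ => exact Subgroup.subset_closure (Or.inl ⟨γ, rfl⟩)
  | inr z =>
    induction z using Monoid.CoprodI.induction_on with
    | one =>
      have h1 : ((Monoid.Coprod.inr (1 : Monoid.CoprodI L) : FP Γ L) : FP Γ L ⧸ N) = 1 := by
        rw [map_one]
        rfl
      rw [h1]
      exact Subgroup.one_mem _
    | of j x => exact Subgroup.subset_closure (Or.inr (Set.mem_iUnion.2 ⟨j, x, rfl⟩))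
    | mul a b ha hb =>
      rw [map_mul]
      exact mul_mem ha hb
  | mul a b ha hb => exact mul_mem ha hb

/-- the map from the quotient of the centre -/
def cen (k : ∀ j, E j →* Γ) (l : ∀ j, E j →* L j) (s : ∀ j, Set (E j)) (D : Subgroup Γ)
    [D.Normal] : Γ ⧸ D →* FP Γ L ⧸ Subgroup.normalClosure (SR k l s (D : Set Γ)) :=
  QuotientGroup.lift D ((QuotientGroup.mk' _).comp Monoid.Coprod.inl) (fun γ hγ =>
    (QuotientGroup.eq_one_iff _).2 (Subgroup.subset_normalClosure (Or.inl ⟨γ, hγ, rfl⟩)))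

/-- the map from a leaf -/
def lef (k : ∀ j, E j →* Γ) (l : ∀ j, E j →* L j) (s : ∀ j, Set (E j)) (D : Set Γ) (j : J) :
    L j →* FP Γ L ⧸ Subgroup.normalClosure (SR k l s D) :=
  (QuotientGroup.mk' _).comp (ofL Γ j)

/-- the quotient is a star product over the subgroups `s j` -/
theorem isSP_quot (k : ∀ j, E j →* Γ) (l : ∀ j, E j →* L j) (s : ∀ j, Subgroup (E j))
    (D : Subgroup Γ) [D.Normal] :
    IsSP (fun j => (((QuotientGroup.mk' D).comp (k j)).comp (s j).subtype))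
      (fun j => (l j).comp (s j).subtype)
      (cen k l (fun j => (s j : Set (E j))) D) (lef k l (fun j => (s j : Set (E j))) D) where
  comm := by
    intro j e
    change (QuotientGroup.mk (Monoid.Coprod.inl (k j e.1)) :
      FP Γ L ⧸ Subgroup.normalClosure (SR k l (fun j => (s j : Set (E j))) D)) =
      QuotientGroup.mk (ofL Γ j (l j e.1))
    rw [← mul_inv_eq_one, ← QuotientGroup.mk_inv, ← QuotientGroup.mk_mul]
    exact (QuotientGroup.eq_one_iff _).2
      (Subgroup.subset_normalClosure (Or.inr ⟨j, e.1, e.2, rfl⟩))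
  gen := by
    rw [eq_top_iff, ← SR_gen (Subgroup.normalClosure (SR k l (fun j => (s j : Set (E j))) D))]
    apply Subgroup.closure_mono
    rintro x (⟨γ, rfl⟩ | hx)
    · exact Or.inl ⟨QuotientGroup.mk γ, rfl⟩
    · exact Or.inr hx
  univ := by
    intro H _ f g h
    obtain ⟨F, h1, h2⟩ := SR_lift k l (fun j => (s j : Set (E j))) D
      (f.comp (QuotientGroup.mk' D)) g (fun γ hγ => by
        change f (QuotientGroup.mk γ) = 1
        rw [(QuotientGroup.eq_one_iff γ).2 hγ, map_one]) (fun j e he => h j ⟨e, he⟩)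
    refine ⟨F, fun x => ?_, h2⟩
    obtain ⟨γ, rfl⟩ := QuotientGroup.mk_surjective x
    exact h1 γ

end sp

end Pool.Agent.N510.PA
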