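import Pool.Agent.N510.PA.Ctr
import Pool.Agent.N510.PA.Quo
import Pool.Agent.Y331.SS.Lim
import Pool.Agent.Y442.LA.Phc
import Pool.Agent.Y812.SS.Wr

/-!
# Star products with the next group as centre
-/

set_option autoImplicit false
set_option linter.unusedSectionVars false
set_option linter.unusedVariables false

open Classical

namespace Pool.Agent.N510.PA

open Pool.Agent.Y110.FJ (ClosedE)
open Pool.Agent.Y331.SS (Kn Kn_zero mem_Kn_succ Kn_mono dies_iff C_Kn wmap wmap_s wmap_p)
open Pool.Agent.Y462.SS hiding psi psi_iA iA dl dl_mul psi_dl_s_ray psi_dl_s_off psi_dl_p EN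
  tau_iA dl_eq_one dies_of_tau
open Pool.Agent.Y524L hiding Rel Gm pr pr_surjective iA iP iA_eq_iP shP psiA psiP psi0 psi0_rel psi
  psi_pr psi_iA psi_iP cT dl dl_mul root_cT sec_cT_ray sec_cT_off psi_cT_p psi_cT_s psi_dl_p
  psi_dl_s_ray psi_dl_s_off EN tau_iA act_dl tau_dl dies_of_tau

section up

variable {X : Type} [Finite X] (d : X)

/-- the recursion for the directed automorphisms of a leaf -/
noncomputable def upC {M : Subgroup (T X)} {Q : Type} [Group Q] (c : PH d M →* Q) (e : M →* Q) :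
    PH d M →* Wr X Q where
  toFun β := ⟨fun x => if x = d then c (shP d β) else e ⟨(β.1 0).1.s x, β.2.2 0 x⟩, (β.1 0).1.p⟩
  map_one' := by
    apply Wr.ext
    · funext x
      change (if x = d then c (shP d 1) else e ⟨1, _⟩) = 1
      have h1 : c (shP d 1) = 1 := map_one _
      have h2 : e (⟨1, one_mem _⟩ : M) = 1 := map_one _
      rw [h1, h2, ite_self]
    · rfl
  map_mul' β γ := by
    apply Wr.ext
    · funext x
      change (if x = d then c (shP d (β * γ)) else e ⟨((β.1 0).1 * (γ.1 0).1).s x, _⟩) =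
        (if (γ.1 0).1.p x = d then c (shP d β) else e ⟨(β.1 0).1.s ((γ.1 0).1.p x), _⟩) *
        (if x = d then c (shP d γ) else e ⟨(γ.1 0).1.s x, _⟩)
      have hd : (γ.1 0).1.p d = d := (γ.1 0).2.1
      by_cases hx : x = d
      · subst hx
        rw [if_pos rfl, if_pos hd, if_pos rfl, ← map_mul]
        rfl
      · have h2 : (γ.1 0).1.p x ≠ d := by
          intro h
          exact hx ((γ.1 0).1.p.injective (h.trans hd.symm))
        rw [if_neg hx, if_neg h2, if_neg hx, ← map_mul]
        rfl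
    · rfl

theorem upC_inj {M : Subgroup (T X)} {Q : Type} [Group Q] {c : PH d M →* Q} {e : M →* Q}
    (hc : Function.Injective c) (he : Function.Injective e) : Function.Injective (upC d c e) := by
  rw [injective_iff_map_eq_one]
  intro β hβ
  have h1 : (β.1 0).1.p = 1 := congrArg Wr.p hβ
  have h2 : ∀ x, (if x = d then c (shP d β) else e ⟨(β.1 0).1.s x, β.2.2 0 x⟩) = 1 :=
    fun x => congrFun (congrArg Wr.s hβ) x
  have h3 : shP d β = 1 := by
    apply hc
    rw [map_one]
    have := h2 d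
    rwa [if_pos rfl] at this
  apply Subtype.ext
  funext n
  cases n with
  | zero =>
    apply Subtype.ext
    apply Wr.ext
    · funext x
      by_cases hx : x = d
      · rw [hx]
        exact (β.1 0).2.2
      · have h4 := h2 x
        rw [if_neg hx] at h4
        exact congrArg Subtype.val (he (h4.trans (map_one e).symm))
    · exact h1
  | succ n => exact congrFun (congrArg Subtype.val h3) n

/-- the recursion for a leaf -/
noncomputable def upE {M : Subgroup (T X)} (hM : LC M) {Q : Type} [Group Q] (e : M →* Q) :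
    M →* Wr X Q where
  toFun a := ⟨fun x => e ⟨sec a.1 x, hM.sec_mem a.1 a.2 x⟩, root a.1⟩
  map_one' := by
    apply Wr.ext
    · funext x
      change e _ = 1
      rw [← map_one e]
      exact congrArg e (Subtype.ext (sec_one x))
    · exact root_one
  map_mul' a b := by
    apply Wr.ext
    · funext x
      change e _ = e _ * e _
      rw [← map_mul]
      exact congrArg e (Subtype.ext (sec_mul a.1 b.1 x))
    · exact root_mul a.1 b.1

theorem upE_inj {M : Subgroup (T X)} (hM : LC M) {Q : Type} [Group Q] {e : M →* Q}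
    (he : Function.Injective e) : Function.Injective (upE hM e) := by
  intro a b hab
  apply Subtype.ext
  apply T_ext
  · exact congrArg Wr.p hab
  · intro x
    exact congrArg Subtype.val (he (congrFun (congrArg Wr.s hab) x))

end up

variable {X : Type} [Finite X] (d : X) {H' H : Subgroup (T X)} (hP : Pair d H' H)
variable {J : Type} (R M : J → Subgroup (T X))
variable (C : ∀ (G : Type) [Group G], Prop)

/-- homomorphisms of the cover and of the leaves, compatible on the edges -/
def Dat (i : ℕ) : Prop :=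
  ∃ (Q : Type) (_ : Group Q) (f : Gm d H' H →* Q) (c : ∀ j, PH d (M j) →* Q)
    (e : ∀ j, M j →* Q), C Q ∧ (∀ γ ∈ Kn (psi d hP) i, f γ = 1) ∧
    (∀ j, Function.Injective (c j)) ∧ (∀ j, Function.Injective (e j)) ∧
    (∀ j (p : PH d (M j)) (q : PH d H), q.1 = p.1 → p.1 ∈ PH d (R j) →
      c j p = f (iP d H' H q)) ∧
    (∀ j (h : M j) (g : H), g.1 = h.1 → h.1 ∈ R j → e j h = f (iA d H' H g))

variable {R M C}

theorem Dat.succ (hC : Closed C) (hR : ∀ j, LC (R j)) (hM : ∀ j, LC (M j)) {i : ℕ}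
    (h : Dat d hP R M C i) : Dat d hP R M C (i + 1) := by
  obtain ⟨Q, _, f, c, e, hQ, hf, hc, he, h1, h2⟩ := h
  refine ⟨Wr X Q, inferInstance, (wmap f).comp (psi d hP), fun j => upC d (c j) (e j),
    fun j => upE (hM j) (e j), Pool.Agent.Y812.SS.t_wr C hC X Q inferInstance hQ, ?_,
    fun j => upC_inj d (hc j) (he j), fun j => upE_inj (hM j) (he j), ?_, ?_⟩
  · intro γ hγ
    rw [mem_Kn_succ] at hγ
    apply Wr.ext
    · funext x
      exact hf _ (hγ.2 x)
    · exact hγ.1
  · intro j p q hqp hp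
    change _ = wmap f (psi d hP (iP d H' H q))
    rw [psi_iP]
    apply Wr.ext
    · funext x
      change (if x = d then c j (shP d p) else e j ⟨(p.1 0).1.s x, p.2.2 0 x⟩) =
        f (if x = d then iP d H' H (shP d q) else iA d H' H ⟨(q.1 0).1.s x, q.2.2 0 x⟩)
      by_cases hx : x = d
      · rw [if_pos hx, if_pos hx]
        refine h1 j _ _ ?_ (sh_mem_PH d hp)
        change sh q.1 = sh p.1
        rw [hqp]
      · rw [if_neg hx, if_neg hx]
        refine h2 j _ _ ?_ (hp.2 0 x)
        change (q.1 0).1.s x = (p.1 0).1.s x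
        rw [hqp]
    · change (p.1 0).1.p = (q.1 0).1.p
      rw [hqp]
  · intro j h g hgh hh
    change _ = wmap f (psi d hP (iA d H' H g))
    rw [psi_iA]
    apply Wr.ext
    · funext x
      refine h2 j _ _ ?_ ((hR j).sec_mem _ hh x)
      change sec g.1 x = sec h.1 x
      rw [hgh]
    · change root h.1 = root g.1
      rw [hgh]

/-! ## the families -/

variable (R) in
/-- the directed automorphisms and the group itself -/
def FE : J × Bool → Type
  | (j, true) => PH d (R j)
  | (j, false) => R j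

instance FE_group : ∀ x : J × Bool, Group (FE d R x)
  | (j, true) => inferInstanceAs (Group (PH d (R j)))
  | (j, false) => inferInstanceAs (Group (R j))

/-- inclusion of the edges in the leaves -/
def FEi (h : ∀ j, R j ≤ M j) : ∀ x : J × Bool, FE d R x →* FE d M x
  | (j, true) => (Subgroup.inclusion (PH_mono d (h j)) : PH d (R j) →* PH d (M j))
  | (j, false) => (Subgroup.inclusion (h j) : R j →* M j)

theorem FEi_inj (h : ∀ j, R j ≤ M j) : ∀ x : J × Bool, Function.Injective (FEi d h x)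
  | (j, true) => Subgroup.inclusion_injective (PH_mono d (h j))
  | (j, false) => Subgroup.inclusion_injective (h j)

variable (H') in
/-- the edges in the cover -/
noncomputable def FEk (hR : ∀ j, R j ≤ H) : ∀ x : J × Bool, FE d R x →* Gm d H' H
  | (j, true) => ((iP d H' H).comp (Subgroup.inclusion (PH_mono d (hR j))) :
      PH d (R j) →* Gm d H' H)
  | (j, false) => ((iA d H' H).comp (Subgroup.inclusion (hR j)) : R j →* Gm d H' H)

/-- homomorphisms of the leaves -/
def FEh {Q : Type} [Group Q] (c : ∀ j, PH d (M j) →* Q) (e : ∀ j, M j →* Q) :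
    ∀ x : J × Bool, FE d M x →* Q
  | (j, true) => c j
  | (j, false) => e j

/-- a directed automorphism as a tree automorphism -/
noncomputable def toT (M : Subgroup (T X)) : PH d M →* T X where
  toFun q := dT d (cr d) q.1 (cr d)
  map_one' := dT_id d (cr d)
  map_mul' a b := (dT_mul d (cr d) (cr d) (cr d) b.1 a.1).symm

theorem toT_inj (M : Subgroup (T X)) : Function.Injective (toT d M) := by
  rw [injective_iff_map_eq_one]
  intro p hp
  exact Subtype.ext (dT_eq_one d hp).2

theorem FEh_inj {Q : Type} [Group Q] {c : ∀ j, PH d (M j) →* Q} {e : ∀ j, M j →* Q}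
    (hc : ∀ j, Function.Injective (c j)) (he : ∀ j, Function.Injective (e j)) :
    ∀ x : J × Bool, Function.Injective (FEh d c e x)
  | (j, true) => hc j
  | (j, false) => he j

theorem tau_FEk (hR : ∀ j, R j ≤ H) (hRM : ∀ j, R j ≤ M j) : ∀ (x : J × Bool) (y : FE d R x),
    tau (psi d hP) (FEk d H' hR x y) =
      FEh d (fun j => toT d (M j)) (fun j => (M j).subtype) x (FEi d hRM x y)
  | (j, true), y => tau_iP d hP _
  | (j, false), y => tau_iA d hP _

theorem FEk_eq_one (hR : ∀ j, R j ≤ H) (hRM : ∀ j, R j ≤ M j) (x : J × Bool) (y : FE d R x)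
    (h : tau (psi d hP) (FEk d H' hR x y) = 1) : y = 1 := by
  rw [tau_FEk d hP hR hRM] at h
  have h1 : FEi d hRM x y = 1 := FEh_inj d (fun j => toT_inj d (M j))
    (fun j => Subtype.val_injective) x (h.trans (map_one _).symm)
  exact FEi_inj d hRM x (h1.trans (map_one _).symm)

theorem C_FE (hC : Closed C) (hM : ∀ j, C (M j)) : ∀ x : J × Bool, C (FE d M x)
  | (j, true) => Pool.Agent.Y442.LA.t_phc C hC X d (M j) (hM j)
  | (j, false) => hM j

theorem tau_of_Kn {i : ℕ} {γ : Gm d H' H} (h : γ ∈ Kn (psi d hP) i) : tau (psi d hP) γ = 1 :=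
  tau_of_dies _ ((dies_iff _ _).2 ⟨i, h⟩)

/-- the star product with the quotient of the cover is in the class -/
theorem C_star (hinj : S_INJ) (hstar : S_STAR) (hC : ClosedE C) (hΓ : C (Gm d H' H))
    (hM : ∀ j, C (M j)) (hR : ∀ j, R j ≤ H) (hRM : ∀ j, R j ≤ M j) {i : ℕ}
    (h : Dat d hP R M C i) :
    C (FP (Gm d H' H) (FE d M) ⧸ Subgroup.normalClosure (SR (FEk d H' hR) (FEi d hRM)
      (fun j => ((⊤ : Subgroup (FE d R j)) : Set (FE d R j))) (Kn (psi d hP) i : Set (Gm d H' H)))) := by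
  obtain ⟨Q, _, f, c, e, hQ, hf, hc, he, h1, h2⟩ := h
  have hsp := isSP_quot (FEk d H' hR) (FEi d hRM) (fun j => (⊤ : Subgroup (FE d R j)))
    (Kn (psi d hP) i)
  have hk : ∀ x, Function.Injective (((QuotientGroup.mk' (Kn (psi d hP) i)).comp
      (FEk d H' hR x)).comp (⊤ : Subgroup (FE d R x)).subtype) := by
    intro x
    rw [injective_iff_map_eq_one]
    intro y hy
    have h3 : FEk d H' hR x y.1 ∈ Kn (psi d hP) i := (QuotientGroup.eq_one_iff _).1 hy
    exact Subtype.ext (FEk_eq_one d hP hR hRM x y.1 (tau_of_Kn d hP h3))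
  have hl : ∀ x, Function.Injective ((FEi d hRM x).comp (⊤ : Subgroup (FE d R x)).subtype) :=
    fun x => (FEi_inj d hRM x).comp Subtype.val_injective
  obtain ⟨ha, hb⟩ := hinj _ _ _ _ _ _ _ _ _ hsp hk hl
  obtain ⟨F, hF1, hF2⟩ := SR_lift (FEk d H' hR) (FEi d hRM)
    (fun j => ((⊤ : Subgroup (FE d R j)) : Set (FE d R j))) (Kn (psi d hP) i : Set (Gm d H' H))
    f (FEh d c e) hf (by
      rintro ⟨j, b⟩ y -
      cases b with
      | true => exact (h1 j ⟨y.1, PH_mono d (hRM j) y.2⟩ ⟨y.1, PH_mono d (hR j) y.2⟩ rfl y.2).symm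
      | false => exact (h2 j ⟨y.1, hRM j y.2⟩ ⟨y.1, hR j y.2⟩ rfl y.2).symm)
  refine hstar C hC _ _ _ _ _ _ _ _ _ hsp ha hb
    (C_Kn Pool.Agent.Y812.SS.t_wr C hC.base (psi d hP) hΓ i) (C_FE d hC.base hM) fun x => ?_
  refine ⟨Q, inferInstance, F, hQ, fun y hy => ?_⟩
  rw [hsp.comm] at hy ⊢
  have h3 : FEh d c e x (FEi d hRM x y.1) = 1 := (hF2 x _).symm.trans hy
  have h4 : FEi d hRM x y.1 = 1 := FEh_inj d hc he x (h3.trans (map_one _).symm)
  change lef _ _ _ _ x (FEi d hRM x y.1) = 1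
  rw [h4, map_one]

/-- **the star product with the next group as centre** -/
theorem star_nxt (hinj : S_INJ) (hstar : S_STAR) (hC : ClosedE C) (hΓ : C (Gm d H' H))
    (hMC : ∀ j, C (M j)) (hR : ∀ j, R j ≤ H) (hRM : ∀ j, R j ≤ M j) (hRl : ∀ j, LC (R j))
    (hMl : ∀ j, LC (M j)) (h : Dat d hP R M C 0) :
    ∃ (Q : Type) (_ : Group Q) (α : nxt d hP →* Q) (c : ∀ j, PH d (M j) →* Q)
      (e : ∀ j, M j →* Q), C Q ∧ Function.Injective α ∧
      (∀ j, Function.Injective (c j)) ∧ (∀ j, Function.Injective (e j)) ∧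
      (∀ j (p : PH d (M j)) (g : nxt d hP), p.1 ∈ PH d (R j) →
        g.1 = dT d (cr d) p.1 (cr d) → c j p = α g) ∧
      (∀ j (h : M j) (g : nxt d hP), h.1 ∈ R j → g.1 = h.1 → e j h = α g) := by
  have hall : ∀ i, Dat d hP R M C i := by
    intro i
    induction i with
    | zero => exact h
    | succ i ih => exact ih.succ d hP hC.base hRl hMl
  obtain ⟨S, hS⟩ : ∃ S : ℕ → Set (FP (Gm d H' H) (FE d M)), S = fun i =>
    SR (FEk d H' hR) (FEi d hRM) (fun j => ((⊤ : Subgroup (FE d R j)) : Set (FE d R j)))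
      (Kn (psi d hP) i : Set (Gm d H' H)) := ⟨_, rfl⟩
  have hSm : Monotone S := by
    intro i j hij
    rw [hS]
    exact SR_mono (fun _ => subset_rfl) (Kn_mono _ hij)
  have hSU : (⋃ i, S i) = SR (FEk d H' hR) (FEi d hRM)
      (fun j => ((⊤ : Subgroup (FE d R j)) : Set (FE d R j)))
      ((tau (psi d hP)).ker : Set (Gm d H' H)) := by
    rw [hS]
    apply subset_antisymm
    · exact Set.iUnion_subset fun i => SR_mono (fun _ => subset_rfl)
        (fun γ hγ => tau_of_Kn d hP hγ)
    · rintro x (⟨γ, hγ, rfl⟩ | hx)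
      · obtain ⟨n, hn⟩ := (dies_iff (psi d hP) γ).1 (dies_of_tau d hP hγ)
        exact Set.mem_iUnion.2 ⟨n, Or.inl ⟨γ, hn, rfl⟩⟩
      · exact Set.mem_iUnion.2 ⟨0, Or.inr hx⟩
  have hW : C (FP (Gm d H' H) (FE d M) ⧸ Subgroup.normalClosure (⋃ i, S i)) := by
    refine quot_colim hC.base (fun i j => ⟨max i j, le_max_left _ _, le_max_right _ _⟩) S hSm
      fun i => ?_
    rw [hS]
    exact C_star d hP hinj hstar hC hΓ hMC hR hRM (hall i)
  rw [hSU] at hW
  obtain ⟨F, hF1, hF2⟩ := SR_lift (FEk d H' hR) (FEi d hRM)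
    (fun j => ((⊤ : Subgroup (FE d R j)) : Set (FE d R j)))
    ((tau (psi d hP)).ker : Set (Gm d H' H)) (tau (psi d hP))
    (FEh d (fun j => toT d (M j)) (fun j => (M j).subtype)) (fun γ hγ => hγ)
    (fun x y _ => tau_FEk d hP hR hRM x y)
  obtain ⟨g0, hg0⟩ : ∃ g0 : Gm d H' H →* FP (Gm d H' H) (FE d M) ⧸ Subgroup.normalClosure
      (SR (FEk d H' hR) (FEi d hRM) (fun j => ((⊤ : Subgroup (FE d R j)) : Set (FE d R j)))
      ((tau (psi d hP)).ker : Set (Gm d H' H))),
      g0 = (QuotientGroup.mk' _).comp Monoid.Coprod.inl := ⟨_, rfl⟩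
  have hker : (tau (psi d hP)).rangeRestrict.ker ≤ g0.ker := by
    intro γ hγ
    have h3 : tau (psi d hP) γ = 1 := by
      rw [MonoidHom.mem_ker] at hγ
      exact congrArg Subtype.val hγ
    rw [hg0]
    exact (QuotientGroup.eq_one_iff _).2 (Subgroup.subset_normalClosure (Or.inl ⟨γ, h3, rfl⟩))
  obtain ⟨α, hα⟩ : ∃ α : nxt d hP →* _, ∀ γ : Gm d H' H, ∀ g : nxt d hP,
      tau (psi d hP) γ = g.1 → α g = g0 γ := by
    refine ⟨(tau (psi d hP)).rangeRestrict.liftOfSurjective
      (tau (psi d hP)).rangeRestrict_surjective ⟨g0, hker⟩, fun γ g hg => ?_⟩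
    have h3 : g = (tau (psi d hP)).rangeRestrict γ := Subtype.ext hg.symm
    rw [h3]
    exact MonoidHom.liftOfRightInverse_comp_apply _ _ _ ⟨g0, hker⟩ γ
  have hαF : ∀ g : nxt d hP, F (α g) = g.1 := by
    rintro ⟨_, γ, rfl⟩
    rw [hα γ _ rfl, hg0]
    exact hF1 γ
  have hrel : ∀ x (y : FE d R x), g0 (FEk d H' hR x y) = QuotientGroup.mk
      (ofL (Gm d H' H) x (FEi d hRM x y)) := by
    intro x y
    rw [hg0, ← mul_inv_eq_one, ← QuotientGroup.mk_inv]
    exact (QuotientGroup.eq_one_iff _).2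
      (Subgroup.subset_normalClosure (Or.inr ⟨x, y, trivial, rfl⟩))
  refine ⟨_, inferInstance, α,
    fun j => (QuotientGroup.mk' _).comp (ofL (L := FE d M) (Gm d H' H) (j, true)),
    fun j => (QuotientGroup.mk' _).comp (ofL (L := FE d M) (Gm d H' H) (j, false)),
    hW, ?_, ?_, ?_, ?_, ?_⟩
  · intro a b hab
    apply Subtype.ext
    rw [← hαF a, ← hαF b, hab]
  · intro j a b hab
    have h3 := congrArg F hab
    exact toT_inj d (M j) ((hF2 (j, true) a).symm.trans (h3.trans (hF2 (j, true) b)))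
  · intro j a b hab
    have h3 := congrArg F hab
    exact Subtype.ext ((hF2 (j, false) a).symm.trans (h3.trans (hF2 (j, false) b)))
  · intro j p g hp hg
    have h3 := hrel (j, true) (⟨p.1, hp⟩ : PH d (R j))
    rw [hα (FEk d H' hR (j, true) (⟨p.1, hp⟩ : PH d (R j))) g, h3]
    · rfl
    · rw [hg]
      exact tau_iP d hP _
  · intro j h g hh hg
    have h3 := hrel (j, false) (⟨h.1, hh⟩ : R j)
    rw [hα (FEk d H' hR (j, false) (⟨h.1, hh⟩ : R j)) g, h3]
    · rfl
    · rw [hg]
      exact tau_iA d hP _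

end Pool.Agent.N510.PA
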