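import Pool.Agent.N510.PA.Stm
import Pool.Agent.N509.TK.Loc

/-!
# Star products act on their Bass-Serre trees (written by helper891)
-/

set_option autoImplicit false

namespace Pool.Agent.N510.PA.Star

open Pool.Agent.N510.PA
open Pool.Agent.Y110.FJ (ClosedE)
open Pool.Agent.Y462.SS (Wr)

/-- the group of order two -/
abbrev Z : Type := Multiplicative (ZMod 2)

/-- the generator -/
def gz : Z := Multiplicative.ofAdd 1

theorem gz_ne : gz ≠ 1 := by decide

theorem z_sq (x : Z) : x * x = 1 := by revert x; decide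

section side

variable {J A W : Type} {L E : J → Type} [Group A] [Group W] [∀ j, Group (L j)]
  [∀ j, Group (E j)] {k : ∀ j, E j →* A} {l : ∀ j, E j →* L j} {a : A →* W} {b : ∀ j, L j →* W}

/-- the image of the edge group -/
abbrev EE (k : ∀ j, E j →* A) (a : A →* W) (j : J) : Subgroup W := (a.comp (k j)).range

/-- the characteristic function of the base point -/
noncomputable def del (k : ∀ j, E j →* A) (a : A →* W) (j : J) (q : W ⧸ EE k a j) : Z := by
  classical
  exact if q = ((1 : W) : W ⧸ EE k a j) then gz else 1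

/-- the action on cosets -/
def lam (H : Subgroup W) : W →* Wr (W ⧸ H) Z where
  toFun w := ⟨1, MulAction.toPerm w⟩
  map_one' := by
    ext x
    · rfl
    · simp
  map_mul' v w := by
    ext x
    · simp
    · simp [mul_smul]

theorem del_eq (j : J) (q : W ⧸ EE k a j) (x : W) (hx : x ∈ EE k a j) :
    del k a j (x • q) = del k a j q := by
  have h : x • q = ((1 : W) : W ⧸ EE k a j) ↔ q = ((1 : W) : W ⧸ EE k a j) := by
    have h1 : x • ((1 : W) : W ⧸ EE k a j) = ((1 : W) : W ⧸ EE k a j) := by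
      rw [MulAction.Quotient.smul_coe, smul_eq_mul, mul_one, QuotientGroup.eq]
      simpa using hx
    constructor
    · intro h2
      rw [← h1] at h2
      exact (smul_left_cancel_iff x).1 h2
    · rintro rfl
      exact h1
  unfold del
  by_cases hq : q = ((1 : W) : W ⧸ EE k a j)
  · rw [if_pos hq, if_pos (h.2 hq)]
  · rw [if_neg hq, if_neg (fun h' => hq (h.1 h'))]

/-- the cocycle -/
theorem exists_cocycle (h : IsSP k l a b) (j0 : J) : ∃ s : W → (W ⧸ EE k a j0) → Z,
    (∀ v w q, s (v * w) q = s v (w • q) * s w q) ∧ (∀ x q, s (a x) q = 1) ∧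
    (∀ j, j ≠ j0 → ∀ x q, s (b j x) q = 1) ∧
    (∀ x q, s (b j0 x) q = del k a j0 (b j0 x • q) * del k a j0 q) := by
  classical
  set H := EE k a j0 with hH
  let z : Wr (W ⧸ H) Z := ⟨del k a j0, 1⟩
  let g : ∀ j, L j →* Wr (W ⧸ H) Z := fun j =>
    if j = j0 then (MulAut.conj z).toMonoidHom.comp ((lam H).comp (b j)) else (lam H).comp (b j)
  have hg0 : ∀ x q, (g j0 x).s q = del k a j0 (b j0 x • q) * del k a j0 q := by
    intro x q
    have h1 : g j0 x = z * lam H (b j0 x) * z⁻¹ := by
      simp only [g, if_true]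
      rfl
    rw [h1]
    have h2 : z⁻¹ = z := by
      rw [inv_eq_iff_mul_eq_one]
      ext q
      · exact z_sq _
      · rfl
    rw [h2]
    show del k a j0 (b j0 x • q) * 1 * del k a j0 q = _
    rw [mul_one]
  have hgp : ∀ j x, (g j x).p = MulAction.toPerm (b j x) := by
    intro j x
    by_cases hj : j = j0
    · have h1 : g j x = z * lam H (b j x) * z⁻¹ := by
        simp only [g, if_pos hj]
        rfl
      rw [h1]
      show (1 : Equiv.Perm (W ⧸ H)) * MulAction.toPerm (b j x) * (1 : Equiv.Perm (W ⧸ H))⁻¹ = _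
      rw [one_mul, inv_one, mul_one]
    · have h1 : g j x = lam H (b j x) := by
        simp only [g, if_neg hj]
        rfl
      rw [h1]
      rfl
  have hg1 : ∀ j, j ≠ j0 → ∀ x q, (g j x).s q = 1 := by
    intro j hj x q
    have h1 : g j x = lam H (b j x) := by
      simp only [g, if_neg hj]
      rfl
    rw [h1]
    rfl
  obtain ⟨Th, hTa, hTb⟩ := h.univ (Wr (W ⧸ H) Z) ((lam H).comp a) g (by
    intro j e
    by_cases hj : j = j0
    · subst hj
      apply Wr.ext
      · funext q
        rw [hg0]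
        show 1 = _
        rw [← h.comm]
        rw [del_eq j q (a (k j e)) ⟨e, rfl⟩, z_sq]
      · rw [hgp, ← h.comm]
        rfl
    · apply Wr.ext
      · funext q
        rw [hg1 j hj]
        rfl
      · rw [hgp, ← h.comm]
        rfl)
  have hp : ∀ w : W, (Th w).p = MulAction.toPerm w := by
    intro w
    have hw : w ∈ Subgroup.closure (Set.range a ∪ ⋃ j, Set.range (b j)) := by
      rw [h.gen]; trivial
    induction hw using Subgroup.closure_induction with
    | mem x hx =>
      rcases hx with ⟨y, rfl⟩ | hx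
      · rw [hTa]; rfl
      · obtain ⟨j, y, rfl⟩ := Set.mem_iUnion.1 hx
        rw [hTb, hgp]
    | one => rw [map_one]; ext; simp
    | mul x y _ _ hx hy => rw [map_mul, Wr.mul_p, hx, hy]; ext; simp [mul_smul]
    | inv x _ hx => rw [map_inv, Wr.inv_p, hx]; ext; simp
  refine ⟨fun w => (Th w).s, ?_, ?_, ?_, ?_⟩
  · intro v w q
    show (Th (v * w)).s q = _
    rw [map_mul, Wr.mul_s, hp]
    rfl
  · intro x q
    show (Th (a x)).s q = _
    rw [hTa]
    rfl
  · intro j hj x q
    show (Th (b j x)).s q = _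
    rw [hTb, hg1 j hj]
  · intro x q
    show (Th (b j0 x)).s q = _
    rw [hTb, hg0]

theorem del_one (j : J) : del k a j ((1 : W) : W ⧸ EE k a j) = gz := by
  unfold del; rw [if_pos rfl]

theorem del_ne (j : J) (q : W ⧸ EE k a j) (hq : q ≠ ((1 : W) : W ⧸ EE k a j)) :
    del k a j q = 1 := by
  unfold del; rw [if_neg hq]

theorem mk_eq_one (H : Subgroup W) (w : W) : (w : W ⧸ H) = ((1 : W) : W ⧸ H) ↔ w ∈ H := by
  rw [QuotientGroup.eq]
  simp

/-- (2) the intersection of the vertex groups -/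
theorem inter (h : IsSP k l a b) (j : J) (x : W) (hx : x ∈ a.range) (hx' : x ∈ (b j).range) :
    x ∈ EE k a j := by
  obtain ⟨s, -, hs1, -, hs3⟩ := exists_cocycle h j
  obtain ⟨y, rfl⟩ := hx
  obtain ⟨y', hy'⟩ := hx'
  have h1 := hs1 y ((1 : W) : W ⧸ EE k a j)
  have h2 := hs3 y' ((1 : W) : W ⧸ EE k a j)
  rw [hy', h1, del_one] at h2
  by_contra hne
  rw [del_ne, one_mul] at h2
  · exact gz_ne h2.symm
  · intro h3
    rw [MulAction.Quotient.smul_coe, smul_eq_mul, mul_one, mk_eq_one] at h3
    exact hne h3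

/-- vertices -/
abbrev VV (a : A →* W) (b : ∀ j, L j →* W) : Type := (W ⧸ a.range) ⊕ (Σ j, W ⧸ (b j).range)

/-- vertices of the first kind -/
def va (a : A →* W) (b : ∀ j, L j →* W) (w : W) : VV a b := Sum.inl (w : W ⧸ a.range)

/-- vertices of the second kind -/
def vb (a : A →* W) (b : ∀ j, L j →* W) (j : J) (w : W) : VV a b :=
  Sum.inr ⟨j, (w : W ⧸ (b j).range)⟩

theorem smul_va (g w : W) : g • va a b w = va a b (g * w) := rfl

theorem smul_vb (g : W) (j : J) (w : W) : g • vb a b j w = vb a b j (g * w) := rfl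

theorem va_eq (w w' : W) : va a b w = va a b w' ↔ w⁻¹ * w' ∈ a.range := by
  unfold va
  rw [Sum.inl.injEq, QuotientGroup.eq]

theorem vb_eq (j : J) (w w' : W) : vb a b j w = vb a b j w' ↔ w⁻¹ * w' ∈ (b j).range := by
  unfold vb
  rw [Sum.inr.injEq]
  constructor
  · intro h
    rw [Sigma.mk.injEq] at h
    exact QuotientGroup.eq.1 (eq_of_heq h.2)
  · intro h
    rw [QuotientGroup.eq.2 h]

theorem va_ne_vb (w : W) (j : J) (w' : W) : va a b w ≠ vb a b j w' := by
  intro h
  exact Sum.inl_ne_inr h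

/-- the Bass-Serre tree -/
def TT (a : A →* W) (b : ∀ j, L j →* W) : SimpleGraph (VV a b) where
  Adj u v := ∃ (w : W) (j : J), (u = va a b w ∧ v = vb a b j w) ∨ (v = va a b w ∧ u = vb a b j w)
  symm := ⟨fun u v ⟨w, j, h⟩ => ⟨w, j, h.symm⟩⟩
  loopless := ⟨fun u ⟨w, j, h⟩ => by
    rcases h with ⟨h1, h2⟩ | ⟨h1, h2⟩
    · exact va_ne_vb w j w (h1.symm.trans h2)
    · exact va_ne_vb w j w (h1.symm.trans h2)⟩

theorem TT_smul (g : W) (u v : VV a b) (h : (TT a b).Adj u v) : (TT a b).Adj (g • u) (g • v) := by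
  obtain ⟨w, j, h⟩ := h
  refine ⟨g * w, j, ?_⟩
  rcases h with ⟨h1, h2⟩ | ⟨h1, h2⟩
  · left
    rw [h1, h2]
    exact ⟨smul_va _ _, smul_vb _ _ _⟩
  · right
    rw [h1, h2]
    exact ⟨smul_va _ _, smul_vb _ _ _⟩

theorem TT_adj (w : W) (j : J) : (TT a b).Adj (va a b w) (vb a b j w) := ⟨w, j, Or.inl ⟨rfl, rfl⟩⟩

/-- the side function of the edge of the base point -/
theorem exists_side (h : IsSP k l a b) (j0 : J) : ∃ chi : VV a b → Z,
    chi (va a b 1) ≠ chi (vb a b j0 1) ∧
    ∀ w j, chi (va a b w) ≠ chi (vb a b j w) → j = j0 ∧ w ∈ EE k a j0 := by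
  classical
  obtain ⟨s, hs0, hs1, hs2, hs3⟩ := exists_cocycle h j0
  set e0 : W ⧸ EE k a j0 := ((1 : W) : W ⧸ EE k a j0) with he0
  have hs_one : s 1 e0 = 1 := by
    have := hs1 1 e0
    rwa [map_one] at this
  let c1 : W ⧸ a.range → Z := Quotient.lift (fun w : W => s w⁻¹ e0) (by
    intro w w' hww
    have h1 : w⁻¹ * w' ∈ a.range := QuotientGroup.leftRel_apply.1 hww
    obtain ⟨y, hy⟩ := h1
    have h2 : w'⁻¹ = a y⁻¹ * w⁻¹ := by
      rw [map_inv, hy]; group
    show s w⁻¹ e0 = s w'⁻¹ e0
    rw [h2, hs0, hs1, one_mul])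
  let c2 : ∀ j, W ⧸ (b j).range → Z := fun j =>
    Quotient.lift (fun w : W => s w⁻¹ e0 * (if j = j0 then del k a j0 (w⁻¹ • e0) else 1)) (by
    intro w w' hww
    have h1 : w⁻¹ * w' ∈ (b j).range := QuotientGroup.leftRel_apply.1 hww
    obtain ⟨y, hy⟩ := h1
    have h2 : w'⁻¹ = b j y⁻¹ * w⁻¹ := by
      rw [map_inv, hy]; group
    show s w⁻¹ e0 * (if j = j0 then del k a j0 (w⁻¹ • e0) else 1) =
      s w'⁻¹ e0 * (if j = j0 then del k a j0 (w'⁻¹ • e0) else 1)
    by_cases hj : j = j0
    · subst hj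
      rw [if_pos rfl, if_pos rfl, h2, hs0, hs3, mul_smul]
      generalize del k a j (b j y⁻¹ • w⁻¹ • e0) = x1
      generalize del k a j (w⁻¹ • e0) = x2
      generalize s w⁻¹ e0 = x3
      revert x1 x2 x3
      decide
    · rw [if_neg hj, if_neg hj, mul_one, mul_one, h2, hs0, hs2 j hj, one_mul])
  let chi : VV a b → Z := Sum.elim c1 (fun v => c2 v.1 v.2)
  have hca : ∀ w, chi (va a b w) = s w⁻¹ e0 := fun w => rfl
  have hcb : ∀ j w, chi (vb a b j w) =
      s w⁻¹ e0 * (if j = j0 then del k a j0 (w⁻¹ • e0) else 1) := fun j w => rfl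
  refine ⟨chi, ?_, ?_⟩
  · rw [hca, hcb, if_pos rfl, inv_one, one_smul, hs_one, one_mul, he0, del_one]
    exact gz_ne.symm
  · intro w j hne
    rw [hca, hcb] at hne
    by_cases hj : j = j0
    · refine ⟨hj, ?_⟩
      rw [if_pos hj] at hne
      by_contra hw
      apply hne
      rw [del_ne, mul_one]
      intro h1
      rw [he0, MulAction.Quotient.smul_coe, smul_eq_mul, mul_one, mk_eq_one] at h1
      exact hw (by simpa using inv_mem h1)
    · rw [if_neg hj, mul_one] at hne
      exact absurd rfl hne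

theorem bridge (h : IsSP k l a b) (w0 : W) (j0 : J) :
    (TT a b).IsBridge s(va a b w0, vb a b j0 w0) := by
  rw [SimpleGraph.isBridge_iff]
  intro hr
  obtain ⟨chi, hc1, hc2⟩ := exists_side h j0
  have key : ∀ u v : VV a b,
      ((TT a b).deleteEdges {s(va a b w0, vb a b j0 w0)}).Reachable u v →
      chi (w0⁻¹ • u) = chi (w0⁻¹ • v) := by
    intro u v huv
    obtain ⟨p⟩ := huv
    induction p with
    | nil => rfl
    | cons hadj _ ih =>
      rw [← ih]
      rename_i u v w _
      rw [SimpleGraph.deleteEdges_adj] at hadj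
      obtain ⟨⟨g, j, hh⟩, hne⟩ := hadj
      have hkey : chi (w0⁻¹ • va a b g) ≠ chi (w0⁻¹ • vb a b j g) →
          s(va a b g, vb a b j g) = s(va a b w0, vb a b j0 w0) := by
        intro hne'
        rw [smul_va, smul_vb] at hne'
        obtain ⟨rfl, h2⟩ := hc2 _ _ hne'
        have h3 : w0⁻¹ * g ∈ a.range := by
          obtain ⟨e, he⟩ := h2
          exact ⟨k j e, he⟩
        have h4 : w0⁻¹ * g ∈ (b j).range := by
          obtain ⟨e, he⟩ := h2
          exact ⟨l j e, by rw [← h.comm]; exact he⟩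
        rw [(va_eq w0 g).2 h3, (vb_eq j w0 g).2 h4]
      rcases hh with ⟨rfl, rfl⟩ | ⟨rfl, rfl⟩
      · by_contra hne'
        exact hne (hkey hne')
      · by_contra hne'
        apply hne
        rw [Set.mem_singleton_iff, Sym2.eq_swap]
        exact hkey fun h' => hne' h'.symm
  have := key _ _ hr
  rw [smul_va, smul_vb, inv_mul_cancel] at this
  exact hc1 this

theorem acyclic (h : IsSP k l a b) : (TT a b).IsAcyclic := by
  rw [SimpleGraph.isAcyclic_iff_forall_adj_isBridge]
  rintro u v ⟨w, j, ⟨rfl, rfl⟩ | ⟨rfl, rfl⟩⟩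
  · exact bridge h w j
  · rw [Sym2.eq_swap]
    exact bridge h w j

theorem connected (h : IsSP k l a b) : (TT a b).Connected := by
  have h1 : ∀ w : W, ∀ w' : W, (TT a b).Reachable (va a b w') (va a b (w' * w)) := by
    intro w
    have hw : w ∈ Subgroup.closure (Set.range a ∪ ⋃ j, Set.range (b j)) := by
      rw [h.gen]; trivial
    induction hw using Subgroup.closure_induction with
    | mem x hx =>
      intro w'
      rcases hx with ⟨y, rfl⟩ | hx
      · rw [(va_eq w' (w' * a y)).2 (by simp)]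
      · obtain ⟨j, y, rfl⟩ := Set.mem_iUnion.1 hx
        have h2 := TT_adj (a := a) (b := b) w' j
        have h3 := TT_adj (a := a) (b := b) (w' * b j y) j
        rw [(vb_eq j w' (w' * b j y)).2 (by simp)] at h2
        exact h2.reachable.trans h3.symm.reachable
    | one => intro w'; rw [mul_one]
    | mul x y _ _ hx hy =>
      intro w'
      rw [← mul_assoc]
      exact (hx w').trans (hy _)
    | inv x _ hx =>
      intro w'
      have := hx (w' * x⁻¹)
      rw [inv_mul_cancel_right] at this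
      exact this.symm
  have h2 : ∀ v : VV a b, (TT a b).Reachable (va a b 1) v := by
    intro v
    rcases v with v | ⟨j, v⟩
    · obtain ⟨w, rfl⟩ := QuotientGroup.mk_surjective v
      have := h1 w 1
      rw [one_mul] at this
      exact this
    · obtain ⟨w, rfl⟩ := QuotientGroup.mk_surjective v
      have := h1 w 1
      rw [one_mul] at this
      exact this.trans (TT_adj w j).reachable
  have : Nonempty (VV a b) := ⟨va a b 1⟩
  exact ⟨fun u v => (h2 u).symm.trans (h2 v)⟩

theorem isTree (h : IsSP k l a b) : (TT a b).IsTree := ⟨connected h, acyclic h⟩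

end side

/-- a subgroup which is conjugate into a group in the class is in the class -/
theorem of_conj {C : ∀ (G : Type) [Group G], Prop} (hC : ClosedE C) {W : Type} [Group W]
    (S H : Subgroup W) (w : W) (hS : ∀ g ∈ S, w⁻¹ * g * w ∈ H) (hH : C H) : C S := by
  let f : S →* H := MonoidHom.codRestrict ((MulAut.conj w⁻¹).toMonoidHom.comp S.subtype) H
    (fun g => by simpa using hS g g.2)
  refine hC.base.of_injective S H f ?_ hH
  intro x y hxy
  have h1 : ((f x : H) : W) = f y := by rw [hxy]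
  have h2 : (MulAut.conj w⁻¹) (x : W) = (MulAut.conj w⁻¹) (y : W) := h1
  exact Subtype.ext ((MulAut.conj w⁻¹).injective h2)

theorem of_range {C : ∀ (G : Type) [Group G], Prop} (hC : ClosedE C) {A W : Type} [Group A]
    [Group W] (a : A →* W) (ha : Function.Injective a) (hA : C A) : C a.range :=
  hC.base.of_injective a.range A (a.ofInjective ha).symm.toMonoidHom
    (a.ofInjective ha).symm.injective hA

theorem main : S_STAR := by
  intro C hC J A W L E _ _ _ _ k l a b h ha hb hA hL hP
  refine Pool.Agent.N509.TK.edges hC (isTree h) TT_smul ?_ ?_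
  · intro v
    rcases v with v | ⟨j, v⟩
    · obtain ⟨w, rfl⟩ := QuotientGroup.mk_surjective v
      refine of_conj hC _ a.range w (fun g hg => ?_) (of_range hC a ha hA)
      have h1 : g • va a b w = va a b w := hg
      rw [smul_va, eq_comm, va_eq, ← mul_assoc] at h1
      exact h1
    · obtain ⟨w, rfl⟩ := QuotientGroup.mk_surjective v
      refine of_conj hC _ (b j).range w (fun g hg => ?_) (of_range hC (b j) (hb j) (hL j))
      have h1 : g • vb a b j w = vb a b j w := hg
      rw [smul_vb, eq_comm, vb_eq, ← mul_assoc] at h1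
      exact h1
  · have key : ∀ (w : W) (j : J), ∃ (P : Type) (_ : Group P) (f : W →* P), C P ∧
        ∀ g : W, g • va a b w = va a b w → g • vb a b j w = vb a b j w → f g = 1 → g = 1 := by
      intro w j
      obtain ⟨P, _, f, hCP, hf⟩ := hP j
      refine ⟨P, inferInstance, f, hCP, fun g h1 h2 h3 => ?_⟩
      rw [smul_va, eq_comm, va_eq, ← mul_assoc] at h1
      rw [smul_vb, eq_comm, vb_eq, ← mul_assoc] at h2
      obtain ⟨e, he⟩ := inter h j _ h1 h2
      have he' : a (k j e) = w⁻¹ * g * w := he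
      have h4 : f (a (k j e)) = 1 := by
        rw [he', map_mul, map_mul, h3, mul_one, ← map_mul, inv_mul_cancel, map_one]
      have h5 := hf e h4
      rw [he'] at h5
      have h6 : g = w * (w⁻¹ * g * w) * w⁻¹ := by group
      rw [h6, h5, mul_one, mul_inv_cancel]
    rintro u v ⟨w, j, ⟨rfl, rfl⟩ | ⟨rfl, rfl⟩⟩
    · exact key w j
    · obtain ⟨P, i, f, h1, h2⟩ := key w j
      exact ⟨P, i, f, h1, fun g h3 h4 => h2 g h4 h3⟩

end Pool.Agent.N510.PA.Star
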