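import Pool.Agent.Y110.FJ.Stm
import Pool.Agent.Y524L.St

/-!
# Automorphisms of polynomial activity: statements

Owner helper510.
-/

set_option autoImplicit false

namespace Pool.Agent.N510.PA

open Pool.Agent.Y110.FJ (ClosedE)
open Pool.Agent.Y462.SS

/-- `g` is of degree at most `n`: degree `0` is bounded; `g` is of degree at most `n + 1` if there are a
finite set of rays `R` and a finite set `F` of automorphisms of degree at most `n` such that every word
that is not on a ray of `R` has a prefix at which the section of `g` is in `F` -/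
def IsPol {X : Type} : ℕ → Equiv.Perm (List X) → Prop
  | 0, g => IsBdd g
  | n + 1, g => ∃ (R : Finset (ℕ → X)) (F : Finset (Equiv.Perm (List X))),
      (∀ f ∈ F, IsTree f ∧ IsPol n f) ∧
      ∀ v : List X, (∀ ρ ∈ R, ¬ OnRay ρ v) →
        ∃ v₁ v₂ : List X, v = v₁ ++ v₂ ∧ ∃ f ∈ F, ∀ w, g (v₁ ++ w) = g v₁ ++ f w

/-- the number of words of length `m` below which `g` acts nontrivially is at most `c (m + 1) ^ n` -/
def PolActivity {X : Type} (g : Equiv.Perm (List X)) : Prop :=
  ∃ c n : ℕ, ∀ m : ℕ,
    {v : List X | v.length = m ∧ ∃ w, g (v ++ w) ≠ g v ++ w}.ncard ≤ c * (m + 1) ^ n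

/-- (POL) finite-state automorphisms of polynomial activity -/
def S_POL : Prop := ∀ (X : Type), Finite X → ∀ g : Equiv.Perm (List X), IsTree g →
  (Sections g).Finite → PolActivity g → ∃ n, IsPol n g

/-- `W` is the star product: the amalgamated product of the group `A` with the groups `L j` over the
groups `E j` -/
structure IsSP {J A W : Type} {L E : J → Type} [Group A] [Group W] [∀ j, Group (L j)]
    [∀ j, Group (E j)] (k : ∀ j, E j →* A) (l : ∀ j, E j →* L j) (a : A →* W)
    (b : ∀ j, L j →* W) : Prop where
  comm : ∀ j (e : E j), a (k j e) = b j (l j e)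
  gen : Subgroup.closure (Set.range a ∪ ⋃ j, Set.range (b j)) = ⊤
  univ : ∀ (H : Type) [Group H] (f : A →* H) (g : ∀ j, L j →* H),
    (∀ j (e : E j), f (k j e) = g j (l j e)) →
    ∃ h : W →* H, (∀ x, h (a x) = f x) ∧ ∀ j x, h (b j x) = g j x

/-- (INJ) the vertex groups embed in the star product -/
def S_INJ : Prop := ∀ (J A W : Type) (L E : J → Type) [Group A] [Group W] [∀ j, Group (L j)]
  [∀ j, Group (E j)] (k : ∀ j, E j →* A) (l : ∀ j, E j →* L j) (a : A →* W) (b : ∀ j, L j →* W),
  IsSP k l a b → (∀ j, Function.Injective (k j)) → (∀ j, Function.Injective (l j)) →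
  Function.Injective a ∧ ∀ j, Function.Injective (b j)

/-- (STAR) a star product is in the class if the vertex groups are and if for every edge there is a
homomorphism to a group in the class which is injective on the edge group -/
def S_STAR : Prop := ∀ (C : ∀ (G : Type) [Group G], Prop), ClosedE C →
  ∀ (J A W : Type) (L E : J → Type) [Group A] [Group W] [∀ j, Group (L j)]
  [∀ j, Group (E j)] (k : ∀ j, E j →* A) (l : ∀ j, E j →* L j) (a : A →* W) (b : ∀ j, L j →* W),
  IsSP k l a b → Function.Injective a → (∀ j, Function.Injective (b j)) →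
  C A → (∀ j, C (L j)) →
  (∀ j, ∃ (P : Type) (_ : Group P) (f : W →* P), C P ∧ ∀ e : E j, f (a (k j e)) = 1 → a (k j e) = 1) →
  C W

end Pool.Agent.N510.PA
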